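import Mathlib

set_option autoImplicit false
set_option linter.unusedSectionVars false
set_option linter.unusedDecidableInType false
set_option linter.unusedFintypeInType false

namespace Pool.Agent.H279.Comb

open Finset
open scoped BigOperators

/-! ### Averages over finite product sets -/

section General

/-- An odd function under a bijection has mean zero. -/
theorem expect_eq_zero_of_odd {X : Type*} [Fintype X] (e : X ≃ X) (f : X → ℝ)
    (h : ∀ x, f (e x) = - f x) : 𝔼 x, f x = 0 := by
  have h1 : 𝔼 x, f x = 𝔼 x, - f x :=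
    (Fintype.expect_equiv e (fun x => - f x) f (fun x => (h x).symm)).symm
  rw [Finset.expect_neg_distrib] at h1
  linarith

/-- Replace the coordinates of `σ` where `P` holds by those of `σ'`. -/
def mix {A Ω : Type*} (P : A → Prop) [DecidablePred P] (σ σ' : A → Ω) : A → Ω :=
  fun a => if P a then σ' a else σ a

theorem mix_mix {A Ω : Type*} (P : A → Prop) [DecidablePred P] (σ σ' : A → Ω) :
    mix P (mix P σ σ') (mix P σ' σ) = σ := by
  funext a
  by_cases h : P a <;> simp [mix, h]

/-- The exchange of the coordinates in `P` as a permutation of the square. -/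
def mixEquiv {A Ω : Type*} (P : A → Prop) [DecidablePred P] :
    ((A → Ω) × (A → Ω)) ≃ ((A → Ω) × (A → Ω)) where
  toFun p := (mix P p.1 p.2, mix P p.2 p.1)
  invFun p := (mix P p.1 p.2, mix P p.2 p.1)
  left_inv p := by simp [mix_mix]
  right_inv p := by simp [mix_mix]

/-- Resampling some coordinates preserves the uniform measure. -/
theorem expect_mix {A Ω : Type*} [Fintype A] [DecidableEq A] [Fintype Ω] [Nonempty Ω]
    (P : A → Prop) [DecidablePred P] (F : (A → Ω) → ℝ) :
    𝔼 σ : A → Ω, 𝔼 σ' : A → Ω, F (mix P σ σ') = 𝔼 σ : A → Ω, F σ := by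
  have h1 : 𝔼 p : (A → Ω) × (A → Ω), F (mix P p.1 p.2) = 𝔼 p : (A → Ω) × (A → Ω), F p.1 :=
    Fintype.expect_equiv (mixEquiv P) _ _ (fun p => rfl)
  rw [← Finset.univ_product_univ, Finset.expect_product, Finset.expect_product] at h1
  simp only at h1
  rw [h1]
  simp

theorem expect_coord {A Ω : Type*} [Fintype A] [DecidableEq A] [Fintype Ω] [Nonempty Ω]
    (a : A) (f : Ω → ℝ) : 𝔼 χ : A → Ω, f (χ a) = 𝔼 x, f x := by
  have h1 : 𝔼 χ : A → Ω, f (χ a) = 𝔼 p : Ω × ({b : A // b ≠ a} → Ω), f p.1 :=
    Fintype.expect_equiv (Equiv.funSplitAt a Ω) _ _ (fun χ => by simp [Equiv.funSplitAt])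
  rw [h1, ← Finset.univ_product_univ, Finset.expect_product]
  simp

/-- The centred indicator of colour zero. -/
noncomputable def cen (K : ℕ) [NeZero K] (x : Fin K) : ℝ := (if x = 0 then 1 else 0) - 1 / K

theorem sum_cen (K : ℕ) [NeZero K] : ∑ x : Fin K, cen K x = 0 := by
  have hK : (K : ℝ) ≠ 0 := Nat.cast_ne_zero.mpr (NeZero.ne K)
  simp only [cen, Finset.sum_sub_distrib, Finset.sum_ite_eq', Finset.mem_univ, if_true,
    Finset.sum_const, Finset.card_univ, Fintype.card_fin, nsmul_eq_mul]
  field_simp
  simp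

theorem expect_cen_single {A : Type*} [Fintype A] [DecidableEq A] (K : ℕ) [NeZero K] (a : A)
    (F : (A → Fin K) → ℝ) (hF : ∀ χ χ' : A → Fin K, (∀ b, b ≠ a → χ b = χ' b) → F χ = F χ') :
    𝔼 χ : A → Fin K, cen K (χ a) * F χ = 0 := by
  rw [← expect_mix (fun b => b = a)]
  refine Finset.expect_eq_zero fun χ _ => ?_
  have h1 : ∀ χ' : A → Fin K, cen K (mix (fun b => b = a) χ χ' a) * F (mix (fun b => b = a) χ χ')
      = F χ * cen K (χ' a) := by
    intro χ'
    have h2 : F (mix (fun b => b = a) χ χ') = F χ := by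
      refine hF _ _ fun b hb => ?_
      simp [mix, hb]
    rw [h2]
    simp [mix]
    ring
  simp_rw [h1]
  rw [← Finset.mul_expect]
  have h3 : 𝔼 χ' : A → Fin K, cen K (χ' a) = 0 := by
    rw [expect_coord a (cen K), Fintype.expect_eq_sum_div_card, sum_cen, zero_div]
  rw [h3, mul_zero]

theorem sum_cen_sq_le (K : ℕ) [NeZero K] : ∑ x : Fin K, cen K x * cen K x ≤ 1 := by
  have hK : (0 : ℝ) < K := Nat.cast_pos.mpr (Nat.pos_of_ne_zero (NeZero.ne K))
  have h1 : ∀ x : Fin K, cen K x * cen K x =
      (1 - 2 / K) * (if x = 0 then 1 else 0) + 1 / (K : ℝ) ^ 2 := by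
    intro x
    by_cases hx : x = 0
    · simp [cen, hx]
      ring
    · simp [cen, hx]
      ring
  simp_rw [h1]
  rw [Finset.sum_add_distrib, ← Finset.mul_sum, Finset.sum_ite_eq']
  simp only [Finset.mem_univ, if_true, Finset.sum_const, Finset.card_univ, Fintype.card_fin,
    nsmul_eq_mul]
  have h2 : (K : ℝ) * (1 / (K : ℝ) ^ 2) = 1 / K := by field_simp
  rw [h2]
  have h3 : 0 < 1 / (K : ℝ) := by positivity
  have h4 : (2 : ℝ) / K = 1 / K + 1 / K := by ring
  rw [h4]
  linarith

theorem expect_cen_mul {A : Type*} [Fintype A] [DecidableEq A] (K : ℕ) [NeZero K] (a b : A) :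
    𝔼 χ : A → Fin K, cen K (χ a) * cen K (χ b) ≤ if a = b then 1 / (K : ℝ) else 0 := by
  by_cases hab : a = b
  · subst hab
    rw [if_pos rfl, expect_coord a (fun x => cen K x * cen K x), Fintype.expect_eq_sum_div_card,
      Fintype.card_fin]
    have hK : (0 : ℝ) < K := Nat.cast_pos.mpr (Nat.pos_of_ne_zero (NeZero.ne K))
    exact div_le_div_of_nonneg_right (sum_cen_sq_le K) hK.le
  · rw [if_neg hab, expect_cen_single K a (fun χ => cen K (χ b))]
    intro χ χ' h
    rw [h b (Ne.symm hab)]

/-- Mean absolute deviation of a random sum. -/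
theorem expect_abs_dev {A : Type*} [Fintype A] [DecidableEq A] (K : ℕ) [NeZero K] (v : A → ℝ)
    (B M s : ℝ) (hB : 0 ≤ B) (hv0 : ∀ a, 0 ≤ v a) (hvB : ∀ a, v a ≤ B) (hM : ∑ a, v a ≤ M) (hs : 0 < s) :
    𝔼 χ : A → Fin K, |∑ a, v a * cen K (χ a)| ≤ B * M / (K * s) + s := by
  have hK : (0 : ℝ) < K := Nat.cast_pos.mpr (Nat.pos_of_ne_zero (NeZero.ne K))
  have hz : ∀ z : ℝ, |z| ≤ z ^ 2 / s + s := by
    intro z
    have h1 : |z| * s ≤ z ^ 2 + s * s := by
      have h2 := sq_nonneg (|z| - s)
      have h3 : 0 ≤ |z| * s := by positivity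
      have h4 := sq_abs z
      nlinarith
    have h5 : |z| = |z| * s / s := by field_simp
    rw [h5]
    calc |z| * s / s ≤ (z ^ 2 + s * s) / s := div_le_div_of_nonneg_right h1 hs.le
      _ = z ^ 2 / s + s := by field_simp
  calc 𝔼 χ : A → Fin K, |∑ a, v a * cen K (χ a)|
      ≤ 𝔼 χ : A → Fin K, ((∑ a, v a * cen K (χ a)) ^ 2 / s + s) :=
        Finset.expect_le_expect fun χ _ => hz _
    _ = (𝔼 χ : A → Fin K, (∑ a, v a * cen K (χ a)) ^ 2) / s + s := by
        rw [Finset.expect_add_distrib, ← Finset.expect_div, Fintype.expect_const]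
    _ = (∑ a, ∑ b, v a * v b * 𝔼 χ : A → Fin K, cen K (χ a) * cen K (χ b)) / s + s := by
        congr 2
        have h1 : ∀ χ : A → Fin K, (∑ a, v a * cen K (χ a)) ^ 2 =
            ∑ a, ∑ b, v a * v b * (cen K (χ a) * cen K (χ b)) := by
          intro χ
          rw [sq, Finset.sum_mul_sum]
          refine Finset.sum_congr rfl fun a _ => Finset.sum_congr rfl fun b _ => ?_
          ring
        simp_rw [h1]
        rw [Finset.expect_sum_comm]
        refine Finset.sum_congr rfl fun a _ => ?_
        rw [Finset.expect_sum_comm]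
        refine Finset.sum_congr rfl fun b _ => ?_
        rw [Finset.mul_expect]
    _ ≤ (∑ a, ∑ b, v a * v b * (if a = b then 1 / (K : ℝ) else 0)) / s + s := by
        gcongr with a _ b _
        · exact mul_nonneg (hv0 a) (hv0 b)
        · exact expect_cen_mul K a b
    _ = (∑ a, v a * v a / K) / s + s := by
        congr 2
        refine Finset.sum_congr rfl fun a _ => ?_
        simp_rw [mul_ite, mul_zero]
        rw [Finset.sum_ite_eq]
        simp
        ring
    _ ≤ (B * M / K) / s + s := by
        gcongr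
        have h2 : ∑ a, v a * v a / K = (∑ a, v a * v a) / K := by rw [Finset.sum_div]
        rw [h2]
        gcongr
        calc ∑ a, v a * v a ≤ ∑ a, B * v a :=
              Finset.sum_le_sum fun a _ => mul_le_mul_of_nonneg_right (hvB a) (hv0 a)
          _ = B * ∑ a, v a := by rw [Finset.mul_sum]
          _ ≤ B * M := mul_le_mul_of_nonneg_left hM hB
    _ = B * M / (K * s) + s := by rw [div_div]

end General

/-! ### Signs, tuples and charges -/

section Charges

variable {A J Λ : Type*} [Fintype A] [Fintype J] [Fintype Λ] [DecidableEq A] [DecidableEq J]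
  [DecidableEq Λ]

/-- The sign attached to a boolean. -/
def eps (b : Bool) : ℝ := if b then 1 else -1

theorem eps_mul_self (b : Bool) : eps b * eps b = 1 := by
  cases b <;> simp [eps]

theorem eps_not (b : Bool) : eps (!b) = - eps b := by
  cases b <;> simp [eps]

theorem abs_eps (b : Bool) : |eps b| = 1 := by
  cases b <;> simp [eps]

/-- The signed indicator of the label `l`. -/
def sg (o : Option (Bool × Λ)) (l : Λ) : ℝ :=
  match o with
  | none => 0
  | some p => if p.2 = l then eps p.1 else 0

theorem abs_sg_le (o : Option (Bool × Λ)) (l : Λ) : |sg o l| ≤ 1 := by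
  cases o with
  | none => simp [sg]
  | some p =>
    by_cases h : p.2 = l <;> simp [sg, h, abs_eps]

/-- The tuple carried by the atom `a` for the sign pattern `σ`. -/
def tp (lab : J → A → Λ) (σ : A → J → Bool) (a : A) : J → Option (Bool × Λ) :=
  fun j => some (σ a j, lab j a)

/-- Flip the sign at `(a, j)`. -/
def flip (a : A) (j : J) (σ : A → J → Bool) : A → J → Bool :=
  fun b i => if b = a ∧ i = j then !(σ b i) else σ b i

omit [Fintype A] [Fintype J] in
theorem flip_flip (a : A) (j : J) (σ : A → J → Bool) : flip a j (flip a j σ) = σ := by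
  funext b i
  by_cases h : b = a ∧ i = j <;> simp [flip, h]

/-- The flip as a permutation. -/
def flipEquiv (a : A) (j : J) : (A → J → Bool) ≃ (A → J → Bool) where
  toFun := flip a j
  invFun := flip a j
  left_inv := flip_flip a j
  right_inv := flip_flip a j

omit [Fintype A] [Fintype J] in
theorem eps_flip_self (a : A) (j : J) (σ : A → J → Bool) :
    eps (flip a j σ a j) = - eps (σ a j) := by
  simp [flip, eps_not]

/-- A function which does not see the sign at `(a, j)` is orthogonal to that sign. -/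
theorem expect_mul_eps (a : A) (j : J) (F : (A → J → Bool) → ℝ)
    (hF : ∀ σ, F (flip a j σ) = F σ) : 𝔼 σ : A → J → Bool, F σ * eps (σ a j) = 0 := by
  refine expect_eq_zero_of_odd (flipEquiv a j) _ fun σ => ?_
  change F (flip a j σ) * eps (flip a j σ a j) = _
  rw [hF, eps_flip_self]
  ring

theorem expect_eps_mul_eps (a b : A) (j : J) :
    𝔼 σ : A → J → Bool, eps (σ a j) * eps (σ b j) = if a = b then 1 else 0 := by
  by_cases hab : a = b
  · subst hab
    simp_rw [eps_mul_self]
    simp
  · rw [if_neg hab]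
    have h := expect_mul_eps b j (fun σ : A → J → Bool => eps (σ a j)) (fun σ => by
      simp [flip, hab])
    exact h

/-- The block sum of signs. -/
def S (lab : J → A → Λ) (σ : A → J → Bool) (j : J) (l : Λ) : ℝ :=
  ∑ a, if lab j a = l then eps (σ a j) else 0

/-- The contribution of the atom `a` at the tuple `t`. -/
def Gat (lab : J → A → Λ) (σ : A → J → Bool) (t : J → Option (Bool × Λ)) (a : A) : ℝ :=
  ∑ j, sg (t j) (lab j a) * eps (σ a j)

/-- The number of coordinates of `t` whose label is that of `a`. -/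
def lam (lab : J → A → Λ) (t : J → Option (Bool × Λ)) (a : A) : ℝ :=
  ∑ j, |sg (t j) (lab j a)|

theorem lam_nonneg (lab : J → A → Λ) (t : J → Option (Bool × Λ)) (a : A) : 0 ≤ lam lab t a :=
  Finset.sum_nonneg fun _ _ => abs_nonneg _

theorem abs_Gat_le (lab : J → A → Λ) (σ : A → J → Bool) (t : J → Option (Bool × Λ)) (a : A) :
    |Gat lab σ t a| ≤ lam lab t a := by
  unfold Gat lam
  refine (Finset.abs_sum_le_sum_abs _ _).trans (Finset.sum_le_sum fun j _ => ?_)
  rw [abs_mul, abs_eps, mul_one]

/-- The charge identity. -/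
theorem charge_identity (lab : J → A → Λ) (N : ℝ) (hN : N ≠ 0) (hcard : (Fintype.card A : ℝ) = N)
    (c : (A → J → Bool) → (J → Option (Bool × Λ)) → ℝ)
    (hc : ∀ σ j l, ∑ t, c σ t * sg (t j) l = - S lab σ j l / (2 * N)) :
    𝔼 σ, ∑ t, c σ t * ∑ a, Gat lab σ t a = - (Fintype.card J : ℝ) / 2 := by
  have h1 : ∀ σ : A → J → Bool, ∑ t, c σ t * ∑ a, Gat lab σ t a =
      ∑ a, ∑ j, ∑ b, (- 1 / (2 * N)) *
        ((if lab j b = lab j a then (1 : ℝ) else 0) * (eps (σ b j) * eps (σ a j))) := by
    intro σ
    have e1 : ∑ t, c σ t * ∑ a, Gat lab σ t a =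
        ∑ a, ∑ j, (∑ t, c σ t * sg (t j) (lab j a)) * eps (σ a j) := by
      simp_rw [Gat, Finset.mul_sum]
      rw [Finset.sum_comm]
      refine Finset.sum_congr rfl fun a _ => ?_
      rw [Finset.sum_comm]
      refine Finset.sum_congr rfl fun j _ => ?_
      rw [Finset.sum_mul]
      refine Finset.sum_congr rfl fun t _ => ?_
      ring
    rw [e1]
    refine Finset.sum_congr rfl fun a _ => Finset.sum_congr rfl fun j _ => ?_
    rw [hc, S, ← Finset.mul_sum]
    have e2 : ∑ b, (if lab j b = lab j a then (1 : ℝ) else 0) * (eps (σ b j) * eps (σ a j)) =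
        (∑ b, if lab j b = lab j a then eps (σ b j) else 0) * eps (σ a j) := by
      rw [Finset.sum_mul]
      refine Finset.sum_congr rfl fun b _ => ?_
      by_cases h : lab j b = lab j a <;> simp [h]
    rw [e2]
    ring
  simp_rw [h1]
  rw [Finset.expect_sum_comm]
  have h2 : ∀ a : A, 𝔼 σ : A → J → Bool, ∑ j, ∑ b, (- 1 / (2 * N)) *
        ((if lab j b = lab j a then (1 : ℝ) else 0) * (eps (σ b j) * eps (σ a j))) =
        (- 1 / (2 * N)) * (Fintype.card J : ℝ) := by
    intro a
    rw [Finset.expect_sum_comm]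
    have h3 : ∀ j : J, 𝔼 σ : A → J → Bool, ∑ b, (- 1 / (2 * N)) *
        ((if lab j b = lab j a then (1 : ℝ) else 0) * (eps (σ b j) * eps (σ a j))) =
        (- 1 / (2 * N)) := by
      intro j
      rw [Finset.expect_sum_comm]
      simp_rw [← Finset.mul_expect, expect_eps_mul_eps]
      rw [Finset.sum_eq_single a]
      · simp
      · intro b _ hb
        simp [hb]
      · simp
    simp_rw [h3]
    simp [mul_comm]
  simp_rw [h2]
  rw [Finset.sum_const, Finset.card_univ, nsmul_eq_mul, hcard]
  field_simp

theorem abs_sg_eq (o : Option (Bool × Λ)) (l : Λ) : |sg o l| = if sg o l ≠ 0 then 1 else 0 := by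
  cases o with
  | none => simp [sg]
  | some p =>
    obtain ⟨b, l'⟩ := p
    by_cases h : l' = l <;> cases b <;> simp [sg, h, eps]

theorem sg_ne_zero {o : Option (Bool × Λ)} {l l' : Λ} (h : sg o l ≠ 0) (h' : sg o l' ≠ 0) :
    l = l' := by
  cases o with
  | none => simp [sg] at h
  | some p =>
    by_contra hne
    by_cases h1 : p.2 = l
    · have h2 : p.2 ≠ l' := fun h3 => hne (h1.symm.trans h3)
      exact h' (by simp [sg, h2])
    · exact h (by simp [sg, h1])

open Classical in
/-- The coordinates at which `t` carries the label of `a`. -/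
noncomputable def supp (lab : J → A → Λ) (t : J → Option (Bool × Λ)) (a : A) : Finset J :=
  Finset.univ.filter fun j => sg (t j) (lab j a) ≠ 0

theorem lam_eq_card (lab : J → A → Λ) (t : J → Option (Bool × Λ)) (a : A) :
    lam lab t a = ((supp lab t a).card : ℝ) := by
  classical
  unfold lam supp
  simp_rw [abs_sg_eq]
  rw [Finset.card_filter]
  push_cast
  refine Finset.sum_congr rfl fun j _ => ?_
  congr

theorem card_inter_le (lab : J → A → Λ)
    (hsep : ∀ a b, a ≠ b → ∀ j j', lab j a = lab j b → lab j' a = lab j' b → j = j')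
    (t : J → Option (Bool × Λ)) {a b : A} (hab : a ≠ b) :
    (supp lab t a ∩ supp lab t b).card ≤ 1 := by
  classical
  rw [Finset.card_le_one]
  intro j hj j' hj'
  simp only [supp, Finset.mem_inter, Finset.mem_filter, Finset.mem_univ, true_and] at hj hj'
  exact hsep a b hab j j' (sg_ne_zero hj.1 hj.2) (sg_ne_zero hj'.1 hj'.2)

theorem heavy_sum_nat (lab : J → A → Λ)
    (hsep : ∀ a b, a ≠ b → ∀ j j', lab j a = lab j b → lab j' a = lab j' b → j = j')
    (t : J → Option (Bool × Λ)) (h : Finset A) :
    ∑ a ∈ h, (supp lab t a).card ≤ (h.biUnion (supp lab t)).card + h.card ^ 2 := by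
  induction h using Finset.induction_on with
  | empty => simp
  | insert a h ha ih =>
    rw [Finset.sum_insert ha, Finset.biUnion_insert, Finset.card_insert_of_notMem ha]
    have h1 : (supp lab t a ∩ h.biUnion (supp lab t)).card ≤ h.card := by
      rw [Finset.inter_biUnion]
      refine Finset.card_biUnion_le.trans ?_
      calc ∑ b ∈ h, (supp lab t a ∩ supp lab t b).card ≤ ∑ b ∈ h, 1 := by
            refine Finset.sum_le_sum fun b hb => card_inter_le lab hsep t ?_
            rintro rfl
            exact ha hb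
        _ = h.card := by simp
    have h2 := Finset.card_union_add_card_inter (supp lab t a) (h.biUnion (supp lab t))
    nlinarith

theorem heavy_sum (lab : J → A → Λ)
    (hsep : ∀ a b, a ≠ b → ∀ j j', lab j a = lab j b → lab j' a = lab j' b → j = j')
    (t : J → Option (Bool × Λ)) (h : Finset A) :
    ∑ a ∈ h, lam lab t a ≤ (Fintype.card J : ℝ) + (h.card : ℝ) ^ 2 := by
  have h1 := heavy_sum_nat lab hsep t h
  have h2 : (h.biUnion (supp lab t)).card ≤ Fintype.card J := Finset.card_le_univ _
  have h3 : ∑ a ∈ h, (supp lab t a).card ≤ Fintype.card J + h.card ^ 2 := by omega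
  simp_rw [lam_eq_card]
  exact_mod_cast h3

/-- The total label count of a tuple. -/
theorem sum_lam_le (lab : J → A → Λ) (m : ℝ) (hm0 : 0 ≤ m)
    (hm : ∀ j l, ((Finset.univ.filter fun a => lab j a = l).card : ℝ) ≤ m)
    (t : J → Option (Bool × Λ)) : ∑ a, lam lab t a ≤ m * Fintype.card J := by
  unfold lam
  rw [Finset.sum_comm]
  calc ∑ j, ∑ a, |sg (t j) (lab j a)| ≤ ∑ _j : J, m := by
        refine Finset.sum_le_sum fun j _ => ?_
        cases htj : t j with
        | none => simpa [sg] using hm0
        | some p =>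
          refine le_trans (le_of_eq ?_) (hm j p.2)
          rw [Finset.card_filter]
          push_cast
          refine Finset.sum_congr rfl fun a _ => ?_
          by_cases h : p.2 = lab j a
          · simp [sg, h, abs_eps]
          · simp [sg, h, Ne.symm h]
    _ = m * Fintype.card J := by simp [mul_comm]

/-! ### The light part -/

/-- The truncated number of common labels. -/
noncomputable def lv (lab : J → A → Λ) (B : ℝ) (t : J → Option (Bool × Λ)) (a : A) : ℝ :=
  open Classical in if B < lam lab t a then 0 else lam lab t a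

/-- The truncated contribution. -/
noncomputable def lg (lab : J → A → Λ) (B : ℝ) (σ : A → J → Bool) (t : J → Option (Bool × Λ))
    (a : A) : ℝ :=
  open Classical in if B < lam lab t a then 0 else Gat lab σ t a

theorem lv_nonneg (lab : J → A → Λ) (B : ℝ) (t : J → Option (Bool × Λ)) (a : A) :
    0 ≤ lv lab B t a := by
  unfold lv
  split_ifs
  · exact le_rfl
  · exact lam_nonneg _ _ _

theorem lv_le (lab : J → A → Λ) (B : ℝ) (hB : 0 ≤ B) (t : J → Option (Bool × Λ)) (a : A) :
    lv lab B t a ≤ B := by
  unfold lv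
  split_ifs with h
  · exact hB
  · exact not_lt.mp h

theorem lv_le_lam (lab : J → A → Λ) (B : ℝ) (t : J → Option (Bool × Λ)) (a : A) :
    lv lab B t a ≤ lam lab t a := by
  unfold lv
  split_ifs with h
  · exact lam_nonneg _ _ _
  · exact le_rfl

theorem abs_lg_le (lab : J → A → Λ) (B : ℝ) (σ : A → J → Bool) (t : J → Option (Bool × Λ))
    (a : A) : |lg lab B σ t a| ≤ lv lab B t a := by
  unfold lg lv
  split_ifs
  · simp
  · exact abs_Gat_le _ _ _ _

theorem light_zero (lab : J → A → Λ) (B : ℝ) (P : A → Prop) [DecidablePred P]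
    (c : (A → J → Bool) → (J → Option (Bool × Λ)) → ℝ) :
    𝔼 σ : A → J → Bool, 𝔼 σ' : A → J → Bool, ∑ t, c (mix P σ σ') t *
      (∑ a, if P a then lg lab B σ t a else 0) = 0 := by
  rw [Finset.expect_comm]
  refine Finset.expect_eq_zero fun σ' _ => ?_
  rw [Finset.expect_sum_comm]
  refine Finset.sum_eq_zero fun t _ => ?_
  simp_rw [Finset.mul_sum]
  rw [Finset.expect_sum_comm]
  refine Finset.sum_eq_zero fun a _ => ?_
  by_cases hP : P a
  · simp only [hP, if_true]
    unfold lg
    split_ifs with h
    · simp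
    · unfold Gat
      simp_rw [Finset.mul_sum]
      rw [Finset.expect_sum_comm]
      refine Finset.sum_eq_zero fun j _ => ?_
      have h1 : 𝔼 σ : A → J → Bool, (c (mix P σ σ') t * sg (t j) (lab j a)) * eps (σ a j) = 0 := by
        refine expect_mul_eps a j (fun σ => c (mix P σ σ') t * sg (t j) (lab j a)) ?_
        intro σ
        have h2 : mix P (flip a j σ) σ' = mix P σ σ' := by
          funext b
          by_cases hb : P b
          · simp [mix, hb]
          · have hba : b ≠ a := by
              rintro rfl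
              exact hb hP
            funext i
            simp [mix, hb, flip, hba]
        rw [h2]
      simp_rw [← mul_assoc]
      exact h1
  · simp [hP]

theorem sum_color (K : ℕ) [NeZero K] (χ : A → Fin K) (v : A → ℝ) :
    (∑ a, if χ a = 0 then v a else 0) = (∑ a, v a) / K + ∑ a, v a * cen K (χ a) := by
  rw [Finset.sum_div, ← Finset.sum_add_distrib]
  refine Finset.sum_congr rfl fun a _ => ?_
  unfold cen
  by_cases h : χ a = 0
  · simp [h]
    ring
  · simp [h]
    ring

theorem expect_color (K : ℕ) [NeZero K] (v : A → ℝ) :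
    𝔼 χ : A → Fin K, (∑ a, if χ a = 0 then v a else 0) = (∑ a, v a) / K := by
  rw [Finset.expect_sum_comm, Finset.sum_div]
  refine Finset.sum_congr rfl fun a _ => ?_
  rw [expect_coord a (fun x : Fin K => if x = 0 then v a else 0), Fintype.expect_eq_sum_div_card]
  simp

/-- The estimate of the light part for one colouring. -/
theorem light_fixed (lab : J → A → Λ) (B M : ℝ) (K : ℕ) [NeZero K] (χ : A → Fin K)
    (c : (A → J → Bool) → (J → Option (Bool × Λ)) → ℝ)
    (hM : ∀ t, ∑ a, lv lab B t a ≤ M) :
    𝔼 σ : A → J → Bool, - ∑ t, c σ t * (∑ a, if χ a = 0 then lg lab B σ t a else 0) ≤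
      (M / K) * (𝔼 σ : A → J → Bool, 𝔼 σ' : A → J → Bool,
        ∑ t, |c σ t - c (mix (fun a => χ a = 0) σ σ') t|) +
      2 * 𝔼 σ : A → J → Bool, ∑ t, |c σ t| * |∑ a, lv lab B t a * cen K (χ a)| := by
  have hK : (0 : ℝ) < K := Nat.cast_pos.mpr (Nat.pos_of_ne_zero (NeZero.ne K))
  have h0 := light_zero lab B (fun a => χ a = 0) c
  have h1 : 𝔼 σ : A → J → Bool, - ∑ t, c σ t * (∑ a, if χ a = 0 then lg lab B σ t a else 0) =
      𝔼 σ : A → J → Bool, 𝔼 σ' : A → J → Bool,
        - ∑ t, (c σ t - c (mix (fun a => χ a = 0) σ σ') t) *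
          (∑ a, if χ a = 0 then lg lab B σ t a else 0) := by
    have h2 : ∀ σ σ' : A → J → Bool, - ∑ t, (c σ t - c (mix (fun a => χ a = 0) σ σ') t) *
          (∑ a, if χ a = 0 then lg lab B σ t a else 0) =
        - ∑ t, c σ t * (∑ a, if χ a = 0 then lg lab B σ t a else 0) +
        ∑ t, c (mix (fun a => χ a = 0) σ σ') t *
          (∑ a, if χ a = 0 then lg lab B σ t a else 0) := by
      intro σ σ'
      simp_rw [sub_mul]
      rw [Finset.sum_sub_distrib]
      ring
    simp_rw [h2, Finset.expect_add_distrib]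
    rw [h0, add_zero]
    simp
  rw [h1]
  have h3 : ∀ σ σ' : A → J → Bool,
      - ∑ t, (c σ t - c (mix (fun a => χ a = 0) σ σ') t) *
          (∑ a, if χ a = 0 then lg lab B σ t a else 0) ≤
      (M / K) * ∑ t, |c σ t - c (mix (fun a => χ a = 0) σ σ') t| +
      ((∑ t, |c σ t| * |∑ a, lv lab B t a * cen K (χ a)|) +
       (∑ t, |c (mix (fun a => χ a = 0) σ σ') t| * |∑ a, lv lab B t a * cen K (χ a)|)) := by
    intro σ σ'
    rw [← Finset.sum_neg_distrib, Finset.mul_sum, ← Finset.sum_add_distrib,
      ← Finset.sum_add_distrib]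
    refine Finset.sum_le_sum fun t _ => ?_
    set x := c σ t
    set y := c (mix (fun a => χ a = 0) σ σ') t
    set G := ∑ a, if χ a = 0 then lg lab B σ t a else 0 with hG
    set d := ∑ a, lv lab B t a * cen K (χ a) with hd
    have hGle : |G| ≤ M / K + |d| := by
      calc |G| ≤ ∑ a, |if χ a = 0 then lg lab B σ t a else 0| := Finset.abs_sum_le_sum_abs _ _
        _ ≤ ∑ a, if χ a = 0 then lv lab B t a else 0 := by
            refine Finset.sum_le_sum fun a _ => ?_
            split_ifs
            · exact abs_lg_le _ _ _ _ _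
            · simp
        _ = (∑ a, lv lab B t a) / K + d := sum_color K χ _
        _ ≤ M / K + |d| := by
            gcongr
            · exact hM t
            · exact le_abs_self d
    calc -((x - y) * G) ≤ |(x - y) * G| := neg_le_abs _
      _ = |x - y| * |G| := abs_mul _ _
      _ ≤ |x - y| * (M / K + |d|) := mul_le_mul_of_nonneg_left hGle (abs_nonneg _)
      _ = M / K * |x - y| + |x - y| * |d| := by ring
      _ ≤ M / K * |x - y| + (|x| * |d| + |y| * |d|) := by
          have := mul_le_mul_of_nonneg_right (abs_sub x y) (abs_nonneg d)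
          linarith
  calc _ ≤ 𝔼 σ : A → J → Bool, 𝔼 σ' : A → J → Bool,
      ((M / K) * ∑ t, |c σ t - c (mix (fun a => χ a = 0) σ σ') t| +
      ((∑ t, |c σ t| * |∑ a, lv lab B t a * cen K (χ a)|) +
       (∑ t, |c (mix (fun a => χ a = 0) σ σ') t| * |∑ a, lv lab B t a * cen K (χ a)|))) :=
        Finset.expect_le_expect fun σ _ => Finset.expect_le_expect fun σ' _ => h3 σ σ'
    _ = _ := by
        simp_rw [Finset.expect_add_distrib, ← Finset.mul_expect]
        rw [expect_mix (fun a => χ a = 0)
          (fun σ => ∑ t, |c σ t| * |∑ a, lv lab B t a * cen K (χ a)|)]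
        simp
        ring

/-- The estimate of the light part. -/
theorem light_total (lab : J → A → Λ) (κ s m W D : ℝ) (hκ : 0 < κ) (hs : 0 < s)
    (K : ℕ) [NeZero K] (hJ : 0 < (Fintype.card J : ℝ)) (hm0 : 0 ≤ m)
    (hm : ∀ j l, ((Finset.univ.filter fun a => lab j a = l).card : ℝ) ≤ m)
    (c : (A → J → Bool) → (J → Option (Bool × Λ)) → ℝ)
    (hW : 𝔼 σ, ∑ t, |c σ t| ≤ W)
    (hD : 𝔼 χ : A → Fin K, 𝔼 σ : A → J → Bool, 𝔼 σ' : A → J → Bool,
        ∑ t, |c σ t - c (mix (fun a => χ a = 0) σ σ') t| ≤ D) :
    𝔼 σ : A → J → Bool, - ∑ t, c σ t * (∑ a, lg lab (κ * Fintype.card J) σ t a) ≤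
      Fintype.card J * (m * D + 2 * W * (κ * m / s + K * s)) := by
  have hK : (0 : ℝ) < K := Nat.cast_pos.mpr (Nat.pos_of_ne_zero (NeZero.ne K))
  set B : ℝ := κ * Fintype.card J with hB
  have hB0 : 0 ≤ B := by positivity
  have hM : ∀ t : J → Option (Bool × Λ), ∑ a, lv lab B t a ≤ m * Fintype.card J := fun t =>
    (Finset.sum_le_sum fun a _ => lv_le_lam lab B t a).trans (sum_lam_le lab m hm0 hm t)
  have h1 : 𝔼 σ : A → J → Bool, - ∑ t, c σ t * (∑ a, lg lab B σ t a) =
      K * 𝔼 χ : A → Fin K, 𝔼 σ : A → J → Bool,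
        - ∑ t, c σ t * (∑ a, if χ a = 0 then lg lab B σ t a else 0) := by
    rw [Finset.expect_comm, Finset.mul_expect]
    refine Finset.expect_congr rfl fun σ _ => ?_
    rw [Finset.expect_neg_distrib, Finset.expect_sum_comm, mul_neg, Finset.mul_sum]
    congr 1
    refine Finset.sum_congr rfl fun t _ => ?_
    rw [← Finset.mul_expect, expect_color]
    field_simp
  rw [h1]
  have h2 : 𝔼 χ : A → Fin K, 𝔼 σ : A → J → Bool,
        - ∑ t, c σ t * (∑ a, if χ a = 0 then lg lab B σ t a else 0) ≤
      (m * Fintype.card J / K) * D +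
        2 * (W * (B * (m * Fintype.card J) / (K * (s * Fintype.card J)) +
          s * Fintype.card J)) := by
    calc _ ≤ 𝔼 χ : A → Fin K, ((m * Fintype.card J / K) *
          (𝔼 σ : A → J → Bool, 𝔼 σ' : A → J → Bool,
            ∑ t, |c σ t - c (mix (fun a => χ a = 0) σ σ') t|) +
          2 * 𝔼 σ : A → J → Bool, ∑ t, |c σ t| * |∑ a, lv lab B t a * cen K (χ a)|) :=
          Finset.expect_le_expect fun χ _ => light_fixed lab B _ K χ c hM
      _ = (m * Fintype.card J / K) * (𝔼 χ : A → Fin K,
          𝔼 σ : A → J → Bool, 𝔼 σ' : A → J → Bool,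
            ∑ t, |c σ t - c (mix (fun a => χ a = 0) σ σ') t|) +
          2 * 𝔼 σ : A → J → Bool, ∑ t, |c σ t| *
            𝔼 χ : A → Fin K, |∑ a, lv lab B t a * cen K (χ a)| := by
          rw [Finset.expect_add_distrib, ← Finset.mul_expect, ← Finset.mul_expect]
          congr 2
          rw [Finset.expect_comm]
          refine Finset.expect_congr rfl fun σ _ => ?_
          rw [Finset.expect_sum_comm]
          refine Finset.sum_congr rfl fun t _ => ?_
          rw [Finset.mul_expect]
      _ ≤ _ := by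
          gcongr
          calc 𝔼 σ : A → J → Bool, ∑ t, |c σ t| *
                𝔼 χ : A → Fin K, |∑ a, lv lab B t a * cen K (χ a)|
              ≤ 𝔼 σ : A → J → Bool, ∑ t, |c σ t| *
                (B * (m * Fintype.card J) / (K * (s * Fintype.card J)) + s * Fintype.card J) := by
                refine Finset.expect_le_expect fun σ _ => Finset.sum_le_sum fun t _ => ?_
                refine mul_le_mul_of_nonneg_left ?_ (abs_nonneg _)
                exact expect_abs_dev K _ B _ _ hB0 (lv_nonneg lab B t) (lv_le lab B hB0 t)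
                  (hM t) (by positivity)
            _ = (𝔼 σ : A → J → Bool, ∑ t, |c σ t|) *
                (B * (m * Fintype.card J) / (K * (s * Fintype.card J)) + s * Fintype.card J) := by
                rw [Finset.expect_mul]
                refine Finset.expect_congr rfl fun σ _ => ?_
                rw [Finset.sum_mul]
            _ ≤ _ := by
                gcongr
  calc _ ≤ (K : ℝ) * ((m * Fintype.card J / K) * D +
        2 * (W * (B * (m * Fintype.card J) / (K * (s * Fintype.card J)) +
          s * Fintype.card J))) := mul_le_mul_of_nonneg_left h2 hK.le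
    _ = _ := by
      rw [hB]
      field_simp

/-- The heavy part for one tuple. -/
theorem heavy_tuple (lab : J → A → Λ)
    (hsep : ∀ a b, a ≠ b → ∀ j j', lab j a = lab j b → lab j' a = lab j' b → j = j')
    (κ m : ℝ) (hκ : 0 < κ) (hJ : 0 < (Fintype.card J : ℝ)) (hm0 : 0 ≤ m)
    (hm : ∀ j l, ((Finset.univ.filter fun a => lab j a = l).card : ℝ) ≤ m)
    (σ : A → J → Bool) (t : J → Option (Bool × Λ)) :
    |∑ a, (Gat lab σ t a - lg lab (κ * Fintype.card J) σ t a)| ≤
      Fintype.card J + (m / κ) ^ 2 := by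
  classical
  set B : ℝ := κ * Fintype.card J with hB
  have hB0 : 0 < B := by positivity
  set h : Finset A := Finset.univ.filter fun a => B < lam lab t a with hh
  have hcard : (h.card : ℝ) ≤ m / κ := by
    have h1 : (h.card : ℝ) * B ≤ m * Fintype.card J := by
      calc (h.card : ℝ) * B = ∑ a ∈ h, B := by simp
        _ ≤ ∑ a ∈ h, lam lab t a := by
            refine Finset.sum_le_sum fun a ha => ?_
            exact (Finset.mem_filter.mp ha).2.le
        _ ≤ ∑ a, lam lab t a :=
            Finset.sum_le_sum_of_subset_of_nonneg (Finset.subset_univ _)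
              (fun a _ _ => lam_nonneg _ _ _)
        _ ≤ _ := sum_lam_le lab m hm0 hm t
    rw [le_div_iff₀ hκ]
    have h2 : ((h.card : ℝ) * κ) * Fintype.card J ≤ m * Fintype.card J := by
      rw [hB] at h1
      linarith
    exact le_of_mul_le_mul_right h2 hJ
  calc |∑ a, (Gat lab σ t a - lg lab B σ t a)|
      ≤ ∑ a, |Gat lab σ t a - lg lab B σ t a| := Finset.abs_sum_le_sum_abs _ _
    _ ≤ ∑ a, (if B < lam lab t a then lam lab t a else 0) := by
        refine Finset.sum_le_sum fun a _ => ?_
        unfold lg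
        split_ifs
        · simpa using abs_Gat_le lab σ t a
        · simp
    _ = ∑ a ∈ h, lam lab t a := by rw [hh, Finset.sum_filter]
    _ ≤ Fintype.card J + (h.card : ℝ) ^ 2 := heavy_sum lab hsep t h
    _ ≤ Fintype.card J + (m / κ) ^ 2 := by
        gcongr

/-- The combinatorial inequality. -/
theorem comb (lab : J → A → Λ)
    (hsep : ∀ a b, a ≠ b → ∀ j j', lab j a = lab j b → lab j' a = lab j' b → j = j')
    (κ s m W D : ℝ) (hκ : 0 < κ) (hs : 0 < s) (K : ℕ) [NeZero K]
    (hJ : 0 < (Fintype.card J : ℝ)) (hm0 : 0 ≤ m)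
    (hm : ∀ j l, ((Finset.univ.filter fun a => lab j a = l).card : ℝ) ≤ m)
    (hN : 0 < (Fintype.card A : ℝ))
    (c : (A → J → Bool) → (J → Option (Bool × Λ)) → ℝ)
    (hc : ∀ σ j l, ∑ t, c σ t * sg (t j) l = - S lab σ j l / (2 * Fintype.card A))
    (hW : 𝔼 σ, ∑ t, |c σ t| ≤ W)
    (hD : 𝔼 χ : A → Fin K, 𝔼 σ : A → J → Bool, 𝔼 σ' : A → J → Bool,
        ∑ t, |c σ t - c (mix (fun a => χ a = 0) σ σ') t| ≤ D) :
    (Fintype.card J : ℝ) / 2 ≤ W * (Fintype.card J + (m / κ) ^ 2) +
      Fintype.card J * (m * D + 2 * W * (κ * m / s + K * s)) := by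
  have h1 := charge_identity lab (Fintype.card A : ℝ) hN.ne' rfl c hc
  have h2 := light_total lab κ s m W D hκ hs K hJ hm0 hm c hW hD
  set B : ℝ := κ * Fintype.card J with hB
  have h3 : 𝔼 σ : A → J → Bool, - ∑ t, c σ t * ∑ a, (Gat lab σ t a - lg lab B σ t a) ≤
      W * (Fintype.card J + (m / κ) ^ 2) := by
    calc _ ≤ 𝔼 σ : A → J → Bool, (∑ t, |c σ t|) * (Fintype.card J + (m / κ) ^ 2) := by
          refine Finset.expect_le_expect fun σ _ => ?_
          rw [← Finset.sum_neg_distrib, Finset.sum_mul]
          refine Finset.sum_le_sum fun t _ => ?_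
          calc -(c σ t * ∑ a, (Gat lab σ t a - lg lab B σ t a))
              ≤ |c σ t * ∑ a, (Gat lab σ t a - lg lab B σ t a)| := neg_le_abs _
            _ = |c σ t| * |∑ a, (Gat lab σ t a - lg lab B σ t a)| := abs_mul _ _
            _ ≤ |c σ t| * (Fintype.card J + (m / κ) ^ 2) :=
                mul_le_mul_of_nonneg_left
                  (heavy_tuple lab hsep κ m hκ hJ hm0 hm σ t) (abs_nonneg _)
      _ = (𝔼 σ : A → J → Bool, ∑ t, |c σ t|) * (Fintype.card J + (m / κ) ^ 2) := by
          rw [Finset.expect_mul]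
      _ ≤ _ := by gcongr
  have h4 : 𝔼 σ : A → J → Bool, - ∑ t, c σ t * ∑ a, Gat lab σ t a =
      𝔼 σ : A → J → Bool, - ∑ t, c σ t * ∑ a, (Gat lab σ t a - lg lab B σ t a) +
      𝔼 σ : A → J → Bool, - ∑ t, c σ t * (∑ a, lg lab B σ t a) := by
    rw [← Finset.expect_add_distrib]
    refine Finset.expect_congr rfl fun σ _ => ?_
    rw [← neg_add, ← Finset.sum_add_distrib]
    congr 1
    refine Finset.sum_congr rfl fun t _ => ?_
    rw [Finset.sum_sub_distrib]
    ring
  rw [Finset.expect_neg_distrib, h1] at h4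
  linarith

/-! ### Hamming distance -/

/-- The normalised Hamming distance of two sign patterns. -/
noncomputable def ham (σ σ' : A → J → Bool) : ℝ :=
  (∑ a, if σ a = σ' a then (0 : ℝ) else 1) / Fintype.card A

theorem ham_nonneg (σ σ' : A → J → Bool) : 0 ≤ ham σ σ' := by
  unfold ham
  refine div_nonneg (Finset.sum_nonneg fun a _ => ?_) (Nat.cast_nonneg _)
  split_ifs <;> norm_num

theorem expect_ham_mix (K : ℕ) [NeZero K] (hN : 0 < (Fintype.card A : ℝ)) (σ σ' : A → J → Bool) :
    𝔼 χ : A → Fin K, ham σ (mix (fun a => χ a = 0) σ σ') ≤ 1 / K := by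
  calc _ ≤ 𝔼 χ : A → Fin K, (∑ a, if χ a = 0 then (1 : ℝ) else 0) / Fintype.card A := by
        refine Finset.expect_le_expect fun χ _ => ?_
        unfold ham
        refine div_le_div_of_nonneg_right (Finset.sum_le_sum fun a _ => ?_) hN.le
        by_cases h : χ a = 0
        · simp only [mix, h, if_true]
          split_ifs <;> norm_num
        · simp [mix, h]
    _ = 1 / K := by
        rw [← Finset.expect_div, expect_color K (fun _ => (1 : ℝ))]
        simp
        field_simp

theorem expect_diff_le (K : ℕ) [NeZero K] (hN : 0 < (Fintype.card A : ℝ)) (η C : ℝ) (hC : 0 ≤ C)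
    (c : (A → J → Bool) → (J → Option (Bool × Λ)) → ℝ)
    (hL : ∀ σ σ', ∑ t, |c σ t - c σ' t| ≤ η + C * ham σ σ') :
    𝔼 χ : A → Fin K, 𝔼 σ : A → J → Bool, 𝔼 σ' : A → J → Bool,
        ∑ t, |c σ t - c (mix (fun a => χ a = 0) σ σ') t| ≤ η + C / K := by
  rw [Finset.expect_comm]
  refine Finset.expect_le Finset.univ_nonempty fun σ _ => ?_
  rw [Finset.expect_comm]
  refine Finset.expect_le Finset.univ_nonempty fun σ' _ => ?_
  calc _ ≤ 𝔼 χ : A → Fin K, (η + C * ham σ (mix (fun a => χ a = 0) σ σ')) :=
        Finset.expect_le_expect fun χ _ => hL _ _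
    _ = η + C * 𝔼 χ : A → Fin K, ham σ (mix (fun a => χ a = 0) σ σ') := by
        rw [Finset.expect_add_distrib, ← Finset.mul_expect, Fintype.expect_const]
    _ ≤ η + C * (1 / K) := by
        gcongr
        exact expect_ham_mix K hN σ σ'
    _ = η + C / K := by ring

/-! ### Concentration of the block sums -/

/-- Off-diagonal pairs in a common block. -/
def offd (lab : J → A → Λ) (j : J) (a b : A) : ℝ :=
  if a ≠ b ∧ lab j a = lab j b then 1 else 0

theorem offd_nonneg (lab : J → A → Λ) (j : J) (a b : A) : 0 ≤ offd lab j a b := by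
  unfold offd
  split_ifs <;> norm_num

theorem sum_sq_S (lab : J → A → Λ) (σ : A → J → Bool) (j : J) :
    ∑ l, S lab σ j l ^ 2 = Fintype.card A +
      ∑ a, ∑ b, offd lab j a b * (eps (σ a j) * eps (σ b j)) := by
  have h1 : ∀ l, S lab σ j l ^ 2 = ∑ a, ∑ b, (if lab j a = l then (1 : ℝ) else 0) *
      (if lab j b = l then (1 : ℝ) else 0) * (eps (σ a j) * eps (σ b j)) := by
    intro l
    unfold S
    rw [sq, Finset.sum_mul_sum]
    refine Finset.sum_congr rfl fun a _ => Finset.sum_congr rfl fun b _ => ?_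
    split_ifs <;> simp
  simp_rw [h1]
  rw [Finset.sum_comm]
  have h2 : ∀ a : A, ∑ l, ∑ b, (if lab j a = l then (1 : ℝ) else 0) *
      (if lab j b = l then (1 : ℝ) else 0) * (eps (σ a j) * eps (σ b j)) =
      1 + ∑ b, offd lab j a b * (eps (σ a j) * eps (σ b j)) := by
    intro a
    rw [Finset.sum_comm]
    have h3 : ∀ b : A, ∑ l, (if lab j a = l then (1 : ℝ) else 0) *
        (if lab j b = l then (1 : ℝ) else 0) * (eps (σ a j) * eps (σ b j)) =
        (if a = b then 1 else 0) + offd lab j a b * (eps (σ a j) * eps (σ b j)) := by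
      intro b
      rw [Finset.sum_eq_single (lab j a)]
      · by_cases hab : a = b
        · subst hab
          simp [offd, eps_mul_self]
        · by_cases hl : lab j a = lab j b
          · simp [offd, hab, hl]
          · simp [offd, hab, hl, Ne.symm hl]
      · intro l _ hl
        simp [Ne.symm hl]
      · simp
    simp_rw [h3]
    rw [Finset.sum_add_distrib]
    simp
  simp_rw [h2]
  rw [Finset.sum_add_distrib]
  simp

theorem expect_four (j : J) (a b c d : A) (hab : a ≠ b) (hcd : c ≠ d) :
    𝔼 σ : A → J → Bool, (eps (σ a j) * eps (σ b j)) * (eps (σ c j) * eps (σ d j)) ≤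
      (if a = c ∧ b = d then 1 else 0) + (if a = d ∧ b = c then 1 else 0) := by
  have hle : 𝔼 σ : A → J → Bool, (eps (σ a j) * eps (σ b j)) * (eps (σ c j) * eps (σ d j)) ≤ 1 := by
    refine Finset.expect_le Finset.univ_nonempty fun σ _ => ?_
    refine (le_abs_self _).trans ?_
    simp [abs_mul, abs_eps]
  by_cases h1 : a = c ∧ b = d
  · rw [if_pos h1]
    have : (0 : ℝ) ≤ (if a = d ∧ b = c then 1 else 0) := by split_ifs <;> norm_num
    linarith
  · by_cases h2 : a = d ∧ b = c
    · rw [if_pos h2]
      have : (0 : ℝ) ≤ (if a = c ∧ b = d then 1 else 0) := by split_ifs <;> norm_num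
      linarith
    · rw [if_neg h1, if_neg h2, add_zero]
      refine le_of_eq ?_
      by_cases hc : c ≠ a ∧ c ≠ b
      · have h3 := expect_mul_eps c j
          (fun σ : A → J → Bool => (eps (σ a j) * eps (σ b j)) * eps (σ d j)) (fun σ => by
            have e1 : a ≠ c := Ne.symm hc.1
            have e2 : b ≠ c := Ne.symm hc.2
            have e3 : d ≠ c := Ne.symm hcd
            simp [flip, e1, e2, e3])
        rw [← h3]
        refine Finset.expect_congr rfl fun σ _ => ?_
        ring
      · by_cases hd : d ≠ a ∧ d ≠ b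
        · have h3 := expect_mul_eps d j
            (fun σ : A → J → Bool => (eps (σ a j) * eps (σ b j)) * eps (σ c j)) (fun σ => by
              have e1 : a ≠ d := Ne.symm hd.1
              have e2 : b ≠ d := Ne.symm hd.2
              simp [flip, e1, e2, hcd])
          rw [← h3]
          refine Finset.expect_congr rfl fun σ _ => ?_
          ring
        · exfalso
          have hc' : c = a ∨ c = b := by tauto
          have hd' : d = a ∨ d = b := by tauto
          rcases hc' with rfl | rfl <;> rcases hd' with rfl | rfl <;> tauto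

theorem expect_offd_sq (lab : J → A → Λ) (j : J) (m : ℝ)
    (hm : ∀ j l, ((Finset.univ.filter fun a => lab j a = l).card : ℝ) ≤ m) :
    𝔼 σ : A → J → Bool, (∑ a, ∑ b, offd lab j a b * (eps (σ a j) * eps (σ b j))) ^ 2 ≤
      2 * (Fintype.card A * m) := by
  have hrow : ∑ a, ∑ b, offd lab j a b ≤ Fintype.card A * m := by
    calc ∑ a, ∑ b, offd lab j a b ≤ ∑ _a : A, m := by
          refine Finset.sum_le_sum fun a _ => ?_
          refine le_trans ?_ (hm j (lab j a))
          rw [Finset.card_filter]
          push_cast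
          refine Finset.sum_le_sum fun b _ => ?_
          unfold offd
          by_cases h : lab j a = lab j b
          · by_cases hab : a = b
            · subst hab; simp
            · simp [h, hab]
          · simp [h, Ne.symm h]
      _ = Fintype.card A * m := by simp
  have h1 : ∀ σ : A → J → Bool,
      (∑ a, ∑ b, offd lab j a b * (eps (σ a j) * eps (σ b j))) ^ 2 =
      ∑ a, ∑ b, ∑ c, ∑ d, (offd lab j a b * offd lab j c d) *
        ((eps (σ a j) * eps (σ b j)) * (eps (σ c j) * eps (σ d j))) := by
    intro σ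
    rw [sq, Finset.sum_mul]
    refine Finset.sum_congr rfl fun a _ => ?_
    rw [Finset.sum_mul]
    refine Finset.sum_congr rfl fun b _ => ?_
    rw [Finset.mul_sum]
    refine Finset.sum_congr rfl fun c _ => ?_
    rw [Finset.mul_sum]
    refine Finset.sum_congr rfl fun d _ => ?_
    ring
  simp_rw [h1]
  simp_rw [Finset.expect_sum_comm, ← Finset.mul_expect]
  calc _ ≤ ∑ a, ∑ b, ∑ c, ∑ d, (offd lab j a b * offd lab j c d) *
        ((if a = c ∧ b = d then 1 else 0) + (if a = d ∧ b = c then 1 else 0)) := by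
        refine Finset.sum_le_sum fun a _ => Finset.sum_le_sum fun b _ =>
          Finset.sum_le_sum fun c _ => Finset.sum_le_sum fun d _ => ?_
        by_cases hab : a = b
        · simp [offd, hab]
        · by_cases hcd : c = d
          · simp [offd, hcd]
          · exact mul_le_mul_of_nonneg_left (expect_four j a b c d hab hcd)
              (mul_nonneg (offd_nonneg _ _ _ _) (offd_nonneg _ _ _ _))
    _ ≤ ∑ a, ∑ b, 2 * offd lab j a b := by
        refine Finset.sum_le_sum fun a _ => Finset.sum_le_sum fun b _ => ?_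
        have hle1 : ∀ c d : A, offd lab j c d ≤ 1 := by
          intro c d
          unfold offd
          split_ifs <;> norm_num
        calc ∑ c, ∑ d, (offd lab j a b * offd lab j c d) *
              ((if a = c ∧ b = d then 1 else 0) + (if a = d ∧ b = c then 1 else 0))
            ≤ ∑ c, ∑ d, offd lab j a b *
              ((if a = c ∧ b = d then 1 else 0) + (if a = d ∧ b = c then 1 else 0)) := by
              refine Finset.sum_le_sum fun c _ => Finset.sum_le_sum fun d _ => ?_
              have h2 : (0 : ℝ) ≤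
                  ((if a = c ∧ b = d then 1 else 0) + (if a = d ∧ b = c then 1 else 0)) := by
                split_ifs <;> norm_num
              refine mul_le_mul_of_nonneg_right ?_ h2
              calc offd lab j a b * offd lab j c d ≤ offd lab j a b * 1 :=
                    mul_le_mul_of_nonneg_left (hle1 c d) (offd_nonneg _ _ _ _)
                _ = offd lab j a b := mul_one _
          _ = 2 * offd lab j a b := by
              simp_rw [← Finset.mul_sum, Finset.sum_add_distrib]
              have e1 : ∑ c : A, ∑ d : A, (if a = c ∧ b = d then (1 : ℝ) else 0) = 1 := by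
                simp_rw [ite_and]
                simp
              have e2 : ∑ c : A, ∑ d : A, (if a = d ∧ b = c then (1 : ℝ) else 0) = 1 := by
                simp_rw [ite_and]
                simp
              rw [e1, e2]
              ring
    _ = 2 * ∑ a, ∑ b, offd lab j a b := by
        simp_rw [Finset.mul_sum]
    _ ≤ 2 * (Fintype.card A * m) := by linarith

end Charges

end Pool.Agent.H279.Comb
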