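import Mathlib

set_option autoImplicit false

namespace Pool.Agent.H279.Comb

open Finset

theorem natCast_inj_of_lt {p a b : ℕ} (ha : a < p) (hb : b < p)
    (h : (a : ZMod p) = (b : ZMod p)) : a = b := by
  have h1 := (ZMod.natCast_eq_natCast_iff' a b p).mp h
  rwa [Nat.mod_eq_of_lt ha, Nat.mod_eq_of_lt hb] at h1

/-- Affine plane designs: two distinct atoms share a block for at most one direction. -/
theorem exists_design (m J n : ℕ) : ∃ p, n ≤ p ∧ 0 < p ∧
    ∃ lab : Fin J → (Fin m × Fin p) → Fin p,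
      (∀ a b, a ≠ b → ∀ j j', lab j a = lab j b → lab j' a = lab j' b → j = j') ∧
      ∀ j l, (Finset.univ.filter fun a => lab j a = l).card = m := by
  obtain ⟨p, hp1, hp2⟩ := Nat.exists_infinite_primes (n + m + J + 1)
  have hp : Fact p.Prime := ⟨hp2⟩
  have hpos : 0 < p := hp2.pos
  have hne : NeZero p := ⟨hpos.ne'⟩
  let φ : Fin p ≃+* ZMod p := ZMod.finEquiv p
  let lab : Fin J → (Fin m × Fin p) → Fin p := fun j a =>
    φ.symm (φ a.2 - ((j : ℕ) : ZMod p) * ((a.1 : ℕ) : ZMod p))
  refine ⟨p, by omega, hpos, lab, ?_, ?_⟩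
  · intro a b hab j j' h1 h2
    have h1' : φ a.2 - ((j : ℕ) : ZMod p) * ((a.1 : ℕ) : ZMod p) =
        φ b.2 - ((j : ℕ) : ZMod p) * ((b.1 : ℕ) : ZMod p) := φ.symm.injective h1
    have h2' : φ a.2 - ((j' : ℕ) : ZMod p) * ((a.1 : ℕ) : ZMod p) =
        φ b.2 - ((j' : ℕ) : ZMod p) * ((b.1 : ℕ) : ZMod p) := φ.symm.injective h2
    have h3 : (((j : ℕ) : ZMod p) - ((j' : ℕ) : ZMod p)) *
        (((a.1 : ℕ) : ZMod p) - ((b.1 : ℕ) : ZMod p)) = 0 := by
      linear_combination h2' - h1'
    rcases mul_eq_zero.mp h3 with h4 | h4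
    · have h5 := natCast_inj_of_lt (p := p) (by omega) (by omega) (sub_eq_zero.mp h4)
      exact Fin.ext h5
    · exfalso
      have h5 := natCast_inj_of_lt (p := p) (by omega) (by omega) (sub_eq_zero.mp h4)
      have h6 : a.1 = b.1 := Fin.ext h5
      have h7 : φ a.2 = φ b.2 := by
        rw [h6] at h1'
        exact sub_left_injective h1'
      exact hab (Prod.ext h6 (φ.injective h7))
  · intro j l
    have h1 : (Finset.univ.filter fun a : Fin m × Fin p => lab j a = l) =
        Finset.univ.image (fun x : Fin m =>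
          ((x, φ.symm (φ l + ((j : ℕ) : ZMod p) * ((x : ℕ) : ZMod p))) : Fin m × Fin p)) := by
      ext a
      simp only [Finset.mem_filter, Finset.mem_univ, true_and, Finset.mem_image]
      constructor
      · intro h
        refine ⟨a.1, Prod.ext rfl ?_⟩
        have h2 : φ a.2 - ((j : ℕ) : ZMod p) * ((a.1 : ℕ) : ZMod p) = φ l := by
          rw [← h]
          exact (φ.apply_symm_apply _).symm
        have h3 : φ a.2 = φ l + ((j : ℕ) : ZMod p) * ((a.1 : ℕ) : ZMod p) := by
          rw [← h2]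
          ring
        change φ.symm (φ l + ((j : ℕ) : ZMod p) * ((a.1 : ℕ) : ZMod p)) = a.2
        rw [← h3, φ.symm_apply_apply]
      · rintro ⟨x, rfl⟩
        change φ.symm (φ (φ.symm (φ l + ((j : ℕ) : ZMod p) * ((x : ℕ) : ZMod p))) -
          ((j : ℕ) : ZMod p) * ((x : ℕ) : ZMod p)) = l
        rw [φ.apply_symm_apply, add_sub_cancel_right, φ.symm_apply_apply]
    rw [h1, Finset.card_image_of_injective]
    · simp
    · intro x y hxy
      exact (Prod.ext_iff.mp hxy).1

end Pool.Agent.H279.Comb
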