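import Pool.Agent.H279.Extend
import Pool.Agent.H279.Design

set_option autoImplicit false
set_option linter.unusedSectionVars false
set_option linter.unusedDecidableInType false
set_option linter.unusedFintypeInType false

namespace Pool.Agent.H279.Comb

open Finset
open scoped BigOperators

/-- The finite structure needed inside the subspace. -/
def HasCharges {V : Type*} [NormedAddCommGroup V] [NormedSpace ℝ V] (X : Submodule ℝ V)
    (J L : ℕ) : Prop :=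
  ∃ (ι : ((Fin J → Option (Bool × Fin L)) → ℝ) →ₗ[ℝ] V)
    (π : V →ₗ[ℝ] ((Fin J → Option (Bool × Fin L)) → ℝ)),
    (∀ g, ‖ι g‖ ≤ ∑ t, |g t|) ∧ (∀ v, ∑ t, |π v t| ≤ ‖v‖) ∧ (∀ g, π (ι g) = g) ∧
    (∀ x ∈ X, ∀ j l, ∑ t, π x t * sg (t j) l = 0) ∧
    (∀ g : (Fin J → Option (Bool × Fin L)) → ℝ,
      (∀ j l, ∑ t, g t * sg (t j) l = 0) → ι g ∈ X)

theorem core {V : Type*} [NormedAddCommGroup V] [NormedSpace ℝ V] (X : Submodule ℝ V)
    (hX : ∀ J L : ℕ, HasCharges X J L)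
    {H : Type*} [NormedAddCommGroup H] [InnerProductSpace ℝ H]
    (f : V → H) (g : H → V)
    (hf : ∀ v ∈ X, ‖v‖ ≤ 1 → ‖f v‖ ≤ 1)
    (hgX : ∀ u, ‖u‖ ≤ 1 → g u ∈ X ∧ ‖g u‖ ≤ 1)
    (hgf : ∀ v ∈ X, ‖v‖ ≤ 1 → g (f v) = v)
    (huf : ∀ ε : ℝ, 0 < ε → ∃ δ : ℝ, 0 < δ ∧ ∀ v ∈ X, ∀ w ∈ X, ‖v‖ ≤ 1 → ‖w‖ ≤ 1 →
      ‖v - w‖ ≤ δ → ‖f v - f w‖ ≤ ε)
    (hug : ∀ ε : ℝ, 0 < ε → ∃ δ : ℝ, 0 < δ ∧ ∀ u u', ‖u‖ ≤ 1 → ‖u'‖ ≤ 1 →
      ‖u - u'‖ ≤ δ → ‖g u - g u'‖ ≤ ε) : False := by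
  classical
  -- choice of the parameters
  obtain ⟨θ, hθ, hgθ⟩ := hug (1 / 16) (by norm_num)
  obtain ⟨τ2, hτ2, hfτ⟩ := huf θ hθ
  set τ : ℝ := τ2 / 2 with hτdef
  have hτ : 0 < τ := by positivity
  set C1 : ℝ := 4 / τ with hC1def
  have hC1 : 0 < C1 := by positivity
  obtain ⟨q, hq⟩ := exists_nat_gt (max (2 / τ) 16)
  have hq1 : 2 / τ < q := (le_max_left _ _).trans_lt hq
  have hq2 : (16 : ℝ) < q := (le_max_right _ _).trans_lt hq
  have hqpos : (0 : ℝ) < q := by linarith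
  set m : ℕ := q ^ 2 with hmdef
  have hmR : (m : ℝ) = (q : ℝ) ^ 2 := by rw [hmdef]; push_cast; ring
  have hmpos : (0 : ℝ) < m := by rw [hmR]; positivity
  have hmpos' : 0 < m := by exact_mod_cast hmpos
  set D : ℝ := 1 / q with hDdef
  have hD0 : 0 < D := by positivity
  have hDm : 1 ≤ D ^ 2 * m := by
    rw [hDdef, hmR]
    have : (1 / (q : ℝ)) ^ 2 * (q : ℝ) ^ 2 = 1 := by field_simp
    rw [this]
  have hDτ : D ≤ τ / 2 := by
    rw [hDdef, div_le_iff₀ hqpos]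
    rw [div_lt_iff₀ hτ] at hq1
    linarith
  have hD16 : D ≤ 1 / 16 := by
    rw [hDdef]
    exact one_div_le_one_div_of_le (by norm_num) hq2.le
  set η : ℝ := 1 / (32 * m) with hηdef
  have hη : 0 < η := by positivity
  obtain ⟨θ3, hθ3, hgη⟩ := hug η hη
  set C : ℝ := 2 * C1 / θ3 ^ 2 + 1 with hCdef
  have hC : 0 < C := by positivity
  obtain ⟨K, hK⟩ := exists_nat_gt (32 * m * C)
  have hKpos : (0 : ℝ) < K := lt_trans (by positivity) hK
  have hKne : NeZero K := ⟨by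
    rintro rfl
    simp at hKpos⟩
  set s : ℝ := 1 / (32 * K) with hsdef
  have hs : 0 < s := by positivity
  set κ : ℝ := s / (32 * m) with hκdef
  have hκ : 0 < κ := by positivity
  obtain ⟨J, hJ⟩ := exists_nat_gt (16 * ((m : ℝ) / κ) ^ 2)
  have hJpos : (0 : ℝ) < J := lt_of_le_of_lt (by positivity) hJ
  obtain ⟨p, hp1, hp2, lab, hsep, hblk⟩ := exists_design m J (32 * J)
  have hp : (0 : ℝ) < p := by exact_mod_cast hp2
  have hp1' : (32 : ℝ) * J ≤ p := by exact_mod_cast hp1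
  have hm : ∀ j l, ((Finset.univ.filter fun a => lab j a = l).card : ℝ) ≤ m := fun j l => by
    rw [hblk j l]
  have hcardA : (Fintype.card (Fin m × Fin p) : ℝ) = m * p := by simp
  have hN : 0 < (Fintype.card (Fin m × Fin p) : ℝ) := by rw [hcardA]; positivity
  obtain ⟨ι, π, hι, hπ, hπι, hXπ, hXι⟩ := hX J p
  -- the near points
  have hnear : ∀ σ : Fin m × Fin p → Fin J → Bool, ∃ w : (Fin J → Option (Bool × Fin p)) → ℝ,
      Good lab σ → (∑ t, |w t| ≤ D) ∧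
        ∀ j l, ∑ t, w t * sg (t j) l = - S lab σ j l / (2 * Fintype.card (Fin m × Fin p)) := by
    intro σ
    by_cases hσ : Good lab σ
    · have h1 : ∀ j, ∑ l, |- S lab σ j l / (2 * Fintype.card (Fin m × Fin p))| ≤ D := by
        intro j
        have h2 := good_abs lab m hmpos (by rw [hcardA]; simp) hN σ hσ j D hD0.le hDm
        simpa [neg_div, abs_neg] using h2
      obtain ⟨w, hw1, hw2⟩ := exists_product D hD0
        (fun j l => - S lab σ j l / (2 * Fintype.card (Fin m × Fin p))) h1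
      exact ⟨w, fun _ => ⟨hw1, hw2⟩⟩
    · exact ⟨0, fun h => absurd h hσ⟩
  choose w hw using hnear
  set x : (Fin m × Fin p → Fin J → Bool) → V := fun σ => ι (fvec lab σ + w σ) with hxdef
  have hxX : ∀ σ, Good lab σ → x σ ∈ X := by
    intro σ hσ
    refine hXι _ fun j l => ?_
    simp only [Pi.add_apply, add_mul]
    rw [Finset.sum_add_distrib, fvec_charge, (hw σ hσ).2]
    ring
  have hιf : ∀ σ, ‖ι (fvec lab σ)‖ ≤ 1 / 2 := fun σ => (hι _).trans (fvec_norm lab σ hN)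
  have hιw : ∀ σ, Good lab σ → ‖ι (w σ)‖ ≤ D := fun σ hσ => (hι _).trans (hw σ hσ).1
  have hιd : ∀ σ σ', ‖ι (fvec lab σ) - ι (fvec lab σ')‖ ≤ ham σ σ' := by
    intro σ σ'
    rw [← map_sub]
    exact (hι _).trans (fvec_diff lab σ σ' hN)
  have hx1 : ∀ σ, Good lab σ → ‖x σ‖ ≤ 1 := by
    intro σ hσ
    calc ‖x σ‖ = ‖ι (fvec lab σ) + ι (w σ)‖ := by rw [hxdef]; simp only [map_add]
      _ ≤ ‖ι (fvec lab σ)‖ + ‖ι (w σ)‖ := norm_add_le _ _
      _ ≤ 1 / 2 + 1 / 16 := add_le_add (hιf σ) ((hιw σ hσ).trans hD16)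
      _ ≤ 1 := by norm_num
  set y : (Fin m × Fin p → Fin J → Bool) → H := fun σ => f (x σ) with hydef
  have hy1 : ∀ σ, Good lab σ → ‖y σ‖ ≤ 1 := fun σ hσ => hf _ (hxX σ hσ) (hx1 σ hσ)
  set G : Finset (Fin m × Fin p → Fin J → Bool) := Finset.univ.filter fun σ => Good lab σ with hG
  have hmemG : ∀ σ, σ ∈ G ↔ Good lab σ := fun σ => by simp [hG]
  have hbad : 𝔼 σ : Fin m × Fin p → Fin J → Bool, (if Good lab σ then (0 : ℝ) else 1) ≤
      1 / 32 := by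
    refine (expect_bad_le lab m hm hN).trans ?_
    rw [hcardA, Fintype.card_fin]
    have h1 : (J : ℝ) * m / (m * p) = J / p := by field_simp
    rw [h1, div_le_div_iff₀ hp (by norm_num)]
    linarith
  have hGne : G.Nonempty := by
    by_contra hcon
    rw [Finset.not_nonempty_iff_eq_empty] at hcon
    have h1 : ∀ σ : Fin m × Fin p → Fin J → Bool, (if Good lab σ then (0 : ℝ) else 1) = 1 := by
      intro σ
      rw [if_neg]
      intro h2
      have h3 := (hmemG σ).mpr h2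
      rw [hcon] at h3
      exact absurd h3 (Finset.notMem_empty σ)
    simp_rw [h1] at hbad
    rw [Fintype.expect_const] at hbad
    norm_num at hbad
  have hham : ∀ σ σ' : Fin m × Fin p → Fin J → Bool, 0 ≤ ham σ σ' := ham_nonneg
  have hyy : ∀ σ ∈ G, ∀ σ' ∈ G, ‖y σ - y σ'‖ ^ 2 ≤ θ ^ 2 + C1 * ham σ σ' := by
    intro σ hσ σ' hσ'
    rw [hmemG] at hσ hσ'
    by_cases h : ham σ σ' ≤ τ
    · have h1 : ‖x σ - x σ'‖ ≤ τ2 := by
        calc ‖x σ - x σ'‖ = ‖(ι (fvec lab σ) - ι (fvec lab σ')) + (ι (w σ) - ι (w σ'))‖ := by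
              rw [hxdef]; simp only [map_add]; congr 1; abel
          _ ≤ ‖ι (fvec lab σ) - ι (fvec lab σ')‖ + ‖ι (w σ) - ι (w σ')‖ := norm_add_le _ _
          _ ≤ ham σ σ' + (‖ι (w σ)‖ + ‖ι (w σ')‖) := add_le_add (hιd σ σ') (norm_sub_le _ _)
          _ ≤ τ + (τ / 2 + τ / 2) := by
              gcongr
              · exact (hιw σ hσ).trans hDτ
              · exact (hιw σ' hσ').trans hDτ
          _ = τ2 := by rw [hτdef]; ring
      have h2 : ‖y σ - y σ'‖ ≤ θ :=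
        hfτ _ (hxX σ hσ) _ (hxX σ' hσ') (hx1 σ hσ) (hx1 σ' hσ') h1
      have h3 : ‖y σ - y σ'‖ ^ 2 ≤ θ ^ 2 := pow_le_pow_left₀ (norm_nonneg _) h2 2
      have h4 : 0 ≤ C1 * ham σ σ' := mul_nonneg hC1.le (hham σ σ')
      linarith
    · push Not at h
      have h1 : ‖y σ - y σ'‖ ≤ 2 := by
        calc _ ≤ ‖y σ‖ + ‖y σ'‖ := norm_sub_le _ _
          _ ≤ 2 := by linarith [hy1 σ hσ, hy1 σ' hσ']
      have h2 : ‖y σ - y σ'‖ ^ 2 ≤ 2 ^ 2 := pow_le_pow_left₀ (norm_nonneg _) h1 2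
      have h3 : 4 ≤ C1 * ham σ σ' := by
        calc (4 : ℝ) = C1 * τ := by rw [hC1def]; field_simp
          _ ≤ C1 * ham σ σ' := mul_le_mul_of_nonneg_left h.le hC1.le
      nlinarith [sq_nonneg θ]
  obtain ⟨F, hF1, hF2, hF3⟩ := lip_extension (Metric.closedBall (0 : H) 1)
    (convex_closedBall _ _) hN G hGne y
    (fun σ hσ => by simpa using hy1 σ ((hmemG σ).mp hσ)) C1 θ hC1.le hθ.le hyy
  have hF1' : ∀ σ, ‖F σ‖ ≤ 1 := fun σ => by simpa using hF1 σ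
  -- the retracted points
  set r : (Fin m × Fin p → Fin J → Bool) → V := fun σ => g (F σ) with hrdef
  have hrX : ∀ σ, r σ ∈ X := fun σ => (hgX _ (hF1' σ)).1
  have hr1 : ∀ σ, ‖r σ‖ ≤ 1 := fun σ => (hgX _ (hF1' σ)).2
  have hrx : ∀ σ, Good lab σ → ‖r σ - x σ‖ ≤ 1 / 16 := by
    intro σ hσ
    have h1 := hgθ (F σ) (y σ) (hF1' σ) (hy1 σ hσ) (hF2 σ ((hmemG σ).mpr hσ))
    rwa [hydef, hgf _ (hxX σ hσ) (hx1 σ hσ)] at h1
  have hrr : ∀ σ σ', ‖r σ - r σ'‖ ≤ η + (2 * C1 / θ3 ^ 2) * ham σ σ' := by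
    intro σ σ'
    by_cases h : ‖F σ - F σ'‖ ≤ θ3
    · have h1 := hgη (F σ) (F σ') (hF1' σ) (hF1' σ') h
      have h2 : 0 ≤ (2 * C1 / θ3 ^ 2) * ham σ σ' := mul_nonneg (by positivity) (hham σ σ')
      linarith
    · push Not at h
      have h1 : ‖r σ - r σ'‖ ≤ 2 := by
        calc _ ≤ ‖r σ‖ + ‖r σ'‖ := norm_sub_le _ _
          _ ≤ 2 := by linarith [hr1 σ, hr1 σ']
      have h2 : θ3 ^ 2 ≤ C1 * ham σ σ' :=
        (pow_le_pow_left₀ hθ3.le h.le 2).trans (hF3 σ σ')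
      have h3 : (2 : ℝ) ≤ (2 * C1 / θ3 ^ 2) * ham σ σ' := by
        have h4 : (2 * C1 / θ3 ^ 2) * ham σ σ' = 2 * (C1 * ham σ σ') / θ3 ^ 2 := by ring
        rw [h4, le_div_iff₀ (by positivity)]
        linarith
      linarith
  -- the deviations
  set c : (Fin m × Fin p → Fin J → Bool) → (Fin J → Option (Bool × Fin p)) → ℝ :=
    fun σ t => π (r σ) t - fvec lab σ t with hcdef
  have hc : ∀ σ j l, ∑ t, c σ t * sg (t j) l =
      - S lab σ j l / (2 * Fintype.card (Fin m × Fin p)) := by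
    intro σ j l
    simp only [hcdef, sub_mul]
    rw [Finset.sum_sub_distrib, hXπ _ (hrX σ), fvec_charge]
    ring
  have hcnorm : ∀ σ, ∑ t, |c σ t| ≤ ‖r σ - ι (fvec lab σ)‖ := by
    intro σ
    refine le_trans (le_of_eq ?_) (hπ _)
    refine Finset.sum_congr rfl fun t _ => ?_
    rw [map_sub, hπι]
    rfl
  have hcW : ∀ σ, ∑ t, |c σ t| ≤ 1 / 8 + (3 / 2) * (if Good lab σ then (0 : ℝ) else 1) := by
    intro σ
    refine (hcnorm σ).trans ?_
    by_cases hσ : Good lab σ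
    · rw [if_pos hσ]
      calc ‖r σ - ι (fvec lab σ)‖ = ‖(r σ - x σ) + ι (w σ)‖ := by
            rw [hxdef]; simp only [map_add]; congr 1; abel
        _ ≤ ‖r σ - x σ‖ + ‖ι (w σ)‖ := norm_add_le _ _
        _ ≤ 1 / 16 + 1 / 16 := add_le_add (hrx σ hσ) ((hιw σ hσ).trans hD16)
        _ = 1 / 8 + 3 / 2 * 0 := by norm_num
    · rw [if_neg hσ]
      calc ‖r σ - ι (fvec lab σ)‖ ≤ ‖r σ‖ + ‖ι (fvec lab σ)‖ := norm_sub_le _ _
        _ ≤ 1 + 1 / 2 := add_le_add (hr1 σ) (hιf σ)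
        _ ≤ 1 / 8 + 3 / 2 * 1 := by norm_num
  have hW : 𝔼 σ, ∑ t, |c σ t| ≤ 1 / 4 := by
    calc _ ≤ 𝔼 σ : Fin m × Fin p → Fin J → Bool,
          (1 / 8 + (3 / 2) * (if Good lab σ then (0 : ℝ) else 1)) :=
          Finset.expect_le_expect fun σ _ => hcW σ
      _ = 1 / 8 + (3 / 2) *
          𝔼 σ : Fin m × Fin p → Fin J → Bool, (if Good lab σ then (0 : ℝ) else 1) := by
          rw [Finset.expect_add_distrib, ← Finset.mul_expect, Fintype.expect_const]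
      _ ≤ 1 / 8 + (3 / 2) * (1 / 32) := by gcongr
      _ ≤ 1 / 4 := by norm_num
  have hcL : ∀ σ σ', ∑ t, |c σ t - c σ' t| ≤ η + C * ham σ σ' := by
    intro σ σ'
    calc _ ≤ ∑ t, (|π (r σ - r σ') t| + |fvec lab σ t - fvec lab σ' t|) := by
          refine Finset.sum_le_sum fun t _ => ?_
          have h1 : c σ t - c σ' t = π (r σ - r σ') t - (fvec lab σ t - fvec lab σ' t) := by
            simp only [hcdef, map_sub, Pi.sub_apply]
            ring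
          rw [h1]
          exact abs_sub _ _
      _ = ∑ t, |π (r σ - r σ') t| + ∑ t, |fvec lab σ t - fvec lab σ' t| :=
          Finset.sum_add_distrib
      _ ≤ ‖r σ - r σ'‖ + ham σ σ' := add_le_add (hπ _) (fvec_diff lab σ σ' hN)
      _ ≤ (η + (2 * C1 / θ3 ^ 2) * ham σ σ') + ham σ σ' := by
          have := hrr σ σ'
          linarith
      _ = η + C * ham σ σ' := by rw [hCdef]; ring
  have hDD := expect_diff_le K hN η C hC.le c hcL
  have hmain := comb lab hsep κ s m (1 / 4) (η + C / K) hκ hs K (by simpa using hJpos) hmpos.le hm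
    hN c hc hW hDD
  rw [Fintype.card_fin] at hmain
  -- numerical contradiction
  have e1 : (m : ℝ) * (η + C / K) ≤ 1 / 16 := by
    have h1 : (m : ℝ) * η = 1 / 32 := by rw [hηdef]; field_simp
    have h2 : (m : ℝ) * (C / K) ≤ 1 / 32 := by
      rw [← mul_div_assoc, div_le_div_iff₀ hKpos (by norm_num)]
      linarith
    rw [mul_add, h1]
    linarith
  have e2 : κ * m / s = 1 / 32 := by rw [hκdef]; field_simp
  have e3 : (K : ℝ) * s = 1 / 32 := by rw [hsdef]; field_simp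
  rw [e2, e3] at hmain
  have e4 : (J : ℝ) * ((m : ℝ) * (η + C / K)) ≤ J * (1 / 16) :=
    mul_le_mul_of_nonneg_left e1 hJpos.le
  nlinarith [hmain, e4, hJ, hJpos]

end Pool.Agent.H279.Comb
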