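import Mathlib

set_option autoImplicit false

namespace Pool.Agent.H279.Kirszbraun

open Finset

variable {E F : Type*} [NormedAddCommGroup E] [InnerProductSpace ℝ E]
  [NormedAddCommGroup F] [InnerProductSpace ℝ F]

/-- The variance identity for weights of total mass one. -/
theorem variance_identity {ι : Type*} [Fintype ι] (w : ι → ℝ) (hw : ∑ i, w i = 1) (z : ι → E) :
    ∑ i, ∑ j, w i * w j * ‖z i - z j‖ ^ 2 =
      2 * (∑ i, w i * ‖z i‖ ^ 2) - 2 * ‖∑ i, w i • z i‖ ^ 2 := by
  have h1 : ‖∑ i, w i • z i‖ ^ 2 = ∑ i, ∑ j, w i * w j * inner ℝ (z i) (z j) := by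
    rw [← real_inner_self_eq_norm_sq, sum_inner]
    refine Finset.sum_congr rfl fun i _ => ?_
    rw [inner_sum]
    refine Finset.sum_congr rfl fun j _ => ?_
    rw [real_inner_smul_left, real_inner_smul_right]
    ring
  have h2 : ∀ i j, w i * w j * ‖z i - z j‖ ^ 2 =
      w j * (w i * ‖z i‖ ^ 2) + w i * (w j * ‖z j‖ ^ 2) - 2 * (w i * w j * inner ℝ (z i) (z j)) := by
    intro i j
    rw [@norm_sub_sq_real]
    ring
  simp_rw [h2, Finset.sum_sub_distrib, Finset.sum_add_distrib]
  have h3 : ∑ i, ∑ j, w j * (w i * ‖z i‖ ^ 2) = ∑ i, w i * ‖z i‖ ^ 2 := by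
    refine Finset.sum_congr rfl fun i _ => ?_
    rw [← Finset.sum_mul, hw, one_mul]
  have h4 : ∑ i, ∑ j, w i * (w j * ‖z j‖ ^ 2) = ∑ i, w i * ‖z i‖ ^ 2 := by
    simp_rw [← Finset.mul_sum]
    rw [← Finset.sum_mul, hw, one_mul]
  rw [h3, h4, h1]
  simp_rw [← Finset.mul_sum]
  ring

/-- One-point extension of a contraction between finite subsets of inner product spaces. -/
theorem one_point {ι : Type*} [Fintype ι] [Nonempty ι] (x : ι → E) (y : ι → F)
    (h : ∀ i j, ‖y i - y j‖ ≤ ‖x i - x j‖) (x0 : E) :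
    ∃ y0 ∈ convexHull ℝ (Set.range y), ∀ i, ‖y0 - y i‖ ≤ ‖x0 - x i‖ := by
  classical
  set b : ι → ℝ := fun i => ‖y i‖ ^ 2 - ‖x i - x0‖ ^ 2 with hb
  set Φ : (ι → ℝ) → ℝ := fun w => ∑ i, w i * b i - ‖∑ i, w i • y i‖ ^ 2 with hΦ
  have hcont : Continuous Φ := by
    rw [hΦ]
    fun_prop
  have hne : (stdSimplex ℝ ι).Nonempty :=
    ⟨_, single_mem_stdSimplex ℝ (Classical.arbitrary ι)⟩
  obtain ⟨w, hw, hmax⟩ := (isCompact_stdSimplex ℝ ι).exists_isMaxOn hne hcont.continuousOn
  have hw0 : ∀ i, 0 ≤ w i := hw.1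
  have hw1 : ∑ i, w i = 1 := hw.2
  set p : F := ∑ i, w i • y i with hp
  set A : ℝ := ∑ i, w i * b i with hA
  have hΦw : Φ w = A - ‖p‖ ^ 2 := rfl
  -- first order condition
  have hfoc : ∀ i, b i - A - 2 * inner ℝ p (y i - p) ≤ 0 := by
    intro i
    by_contra hcon
    push Not at hcon
    set D : ℝ := b i - A - 2 * inner ℝ p (y i - p) with hD
    have key : ∀ s : ℝ, 0 < s → s ≤ 1 → s * D - s ^ 2 * ‖y i - p‖ ^ 2 ≤ 0 := by
      intro s hs0 hs1
      have hmem : (1 - s) • w + s • (Pi.single i (1 : ℝ)) ∈ stdSimplex ℝ ι :=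
        (convex_stdSimplex ℝ ι) hw (single_mem_stdSimplex ℝ i) (by linarith) hs0.le (by ring)
      have hle : Φ ((1 - s) • w + s • (Pi.single i (1 : ℝ))) ≤ Φ w := hmax hmem
      have e1 : ∑ j, ((1 - s) • w + s • (Pi.single i (1 : ℝ) : ι → ℝ)) j * b j
          = (1 - s) * A + s * b i := by
        simp only [Pi.add_apply, Pi.smul_apply, smul_eq_mul, add_mul, Finset.sum_add_distrib]
        congr 1
        · rw [hA, Finset.mul_sum]
          exact Finset.sum_congr rfl fun j _ => by ring
        · rw [Finset.sum_eq_single i]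
          · simp
          · intro j _ hj
            simp [Pi.single_eq_of_ne hj]
          · simp
      have e2 : ∑ j, ((1 - s) • w + s • (Pi.single i (1 : ℝ) : ι → ℝ)) j • y j
          = p + s • (y i - p) := by
        simp only [Pi.add_apply, Pi.smul_apply, smul_eq_mul, add_smul, Finset.sum_add_distrib]
        have e3 : ∑ j, ((1 - s) * w j) • y j = (1 - s) • p := by
          rw [hp, Finset.smul_sum]
          exact Finset.sum_congr rfl fun j _ => by rw [mul_smul]
        have e4 : ∑ j, (s * (Pi.single i (1 : ℝ) : ι → ℝ) j) • y j = s • y i := by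
          rw [Finset.sum_eq_single i]
          · simp
          · intro j _ hj
            simp [Pi.single_eq_of_ne hj]
          · simp
        rw [e3, e4, sub_smul, one_smul, smul_sub]
        abel
      have e5 : Φ ((1 - s) • w + s • (Pi.single i (1 : ℝ))) =
          (1 - s) * A + s * b i - ‖p + s • (y i - p)‖ ^ 2 := by
        simp only [hΦ]
        rw [e1, e2]
      rw [e5, hΦw, @norm_add_sq_real, real_inner_smul_right, norm_smul, Real.norm_eq_abs,
        mul_pow, sq_abs] at hle
      rw [hD]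
      linarith
    have hN : 0 ≤ ‖y i - p‖ ^ 2 := by positivity
    set M : ℝ := ‖y i - p‖ ^ 2 with hM
    have hs : 0 < min 1 (D / (2 * (M + 1))) := by positivity
    have h1 := key _ hs (min_le_left _ _)
    have h2 : min 1 (D / (2 * (M + 1))) * (M + 1) ≤ D / 2 := by
      have := mul_le_mul_of_nonneg_right (min_le_right 1 (D / (2 * (M + 1))))
        (by linarith : (0:ℝ) ≤ M + 1)
      calc _ ≤ D / (2 * (M + 1)) * (M + 1) := this
        _ = D / 2 := by field_simp
    nlinarith [hs, h1, h2, hcon, hN]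
  have hneg : A - ‖p‖ ^ 2 ≤ 0 := by
    have v1 := variance_identity w hw1 y
    have v2 := variance_identity w hw1 (fun i => x i - x0)
    have hcmp : ∑ i, ∑ j, w i * w j * ‖y i - y j‖ ^ 2 ≤
        ∑ i, ∑ j, w i * w j * ‖(x i - x0) - (x j - x0)‖ ^ 2 := by
      refine Finset.sum_le_sum fun i _ => Finset.sum_le_sum fun j _ => ?_
      have hij : ‖y i - y j‖ ^ 2 ≤ ‖(x i - x0) - (x j - x0)‖ ^ 2 := by
        rw [sub_sub_sub_cancel_right]
        exact pow_le_pow_left₀ (norm_nonneg _) (h i j) 2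
      exact mul_le_mul_of_nonneg_left hij (mul_nonneg (hw0 i) (hw0 j))
    have hA2 : A = ∑ i, w i * ‖y i‖ ^ 2 - ∑ i, w i * ‖x i - x0‖ ^ 2 := by
      rw [hA, hb, ← Finset.sum_sub_distrib]
      exact Finset.sum_congr rfl fun i _ => by ring
    have hsq : 0 ≤ ‖∑ i, w i • (x i - x0)‖ ^ 2 := by positivity
    rw [v1, v2] at hcmp
    rw [hA2]
    linarith
  refine ⟨p, ?_, ?_⟩
  · exact (convex_convexHull ℝ _).sum_mem (fun i _ => hw0 i) hw1
      (fun i _ => subset_convexHull ℝ _ (Set.mem_range_self i))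
  · intro i
    have hi := hfoc i
    have e : ‖p - y i‖ ^ 2 ≤ ‖x0 - x i‖ ^ 2 := by
      rw [norm_sub_rev p (y i), norm_sub_rev x0 (x i)]
      have e1 : ‖y i - p‖ ^ 2 = ‖y i‖ ^ 2 - 2 * inner ℝ p (y i - p) - ‖p‖ ^ 2 := by
        rw [@norm_sub_sq_real, inner_sub_right, real_inner_self_eq_norm_sq, real_inner_comm]
        ring
      rw [e1]
      simp only [hb] at hi
      linarith
    exact le_of_sq_le_sq e (norm_nonneg _)

/-- One-point extension on a finset, with values in a convex set. -/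
theorem one_point_finset {ι : Type*} (s : Finset ι) (hs : s.Nonempty) (C : Set F)
    (hC : Convex ℝ C) (x : ι → E) (y : ι → F) (hy : ∀ i ∈ s, y i ∈ C)
    (h : ∀ i ∈ s, ∀ j ∈ s, ‖y i - y j‖ ≤ ‖x i - x j‖) (x0 : E) :
    ∃ y0 ∈ C, ∀ i ∈ s, ‖y0 - y i‖ ≤ ‖x0 - x i‖ := by
  have : Nonempty s := hs.to_subtype
  obtain ⟨y0, h0, h1⟩ := one_point (fun i : s => x i) (fun i : s => y i)
    (fun i j => h i i.2 j j.2) x0
  refine ⟨y0, ?_, fun i hi => h1 ⟨i, hi⟩⟩
  refine convexHull_min ?_ hC h0
  rintro _ ⟨i, rfl⟩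
  exact hy i i.2

/-- Kirszbraun extension for finite index sets, with values in a convex set. -/
theorem extend {ι : Type*} [DecidableEq ι] (s0 s : Finset ι) (hs0 : s0.Nonempty) (C : Set F)
    (hC : Convex ℝ C) (x : ι → E) (y : ι → F) (hy : ∀ i ∈ s0, y i ∈ C)
    (h : ∀ i ∈ s0, ∀ j ∈ s0, ‖y i - y j‖ ≤ ‖x i - x j‖) :
    ∃ y' : ι → F, (∀ i ∈ s0, y' i = y i) ∧ (∀ i ∈ s0 ∪ s, y' i ∈ C) ∧
      ∀ i ∈ s0 ∪ s, ∀ j ∈ s0 ∪ s, ‖y' i - y' j‖ ≤ ‖x i - x j‖ := by
  induction s using Finset.induction_on with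
  | empty =>
    refine ⟨y, fun i _ => rfl, ?_, ?_⟩
    · simpa using hy
    · simpa using h
  | insert a s ha ih =>
    obtain ⟨y1, h1, h2, h3⟩ := ih
    by_cases hmem : a ∈ s0
    · refine ⟨y1, h1, ?_, ?_⟩
      · intro i hi
        refine h2 i ?_
        simp only [Finset.mem_union, Finset.mem_insert] at hi ⊢
        rcases hi with hi | hi | hi
        · exact Or.inl hi
        · exact Or.inl (hi ▸ hmem)
        · exact Or.inr hi
      · intro i hi j hj
        refine h3 i ?_ j ?_
        · simp only [Finset.mem_union, Finset.mem_insert] at hi ⊢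
          rcases hi with hi | hi | hi
          · exact Or.inl hi
          · exact Or.inl (hi ▸ hmem)
          · exact Or.inr hi
        · simp only [Finset.mem_union, Finset.mem_insert] at hj ⊢
          rcases hj with hi | hi | hi
          · exact Or.inl hi
          · exact Or.inl (hi ▸ hmem)
          · exact Or.inr hi
    · have hne : (s0 ∪ s).Nonempty := hs0.mono Finset.subset_union_left
      obtain ⟨y0, hy0C, hy0⟩ := one_point_finset (s0 ∪ s) hne C hC x y1 h2 h3 (x a)
      have hnot : a ∉ s0 ∪ s := by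
        simp [hmem, ha]
      have hupd : ∀ i ∈ s0 ∪ s, Function.update y1 a y0 i = y1 i := by
        intro i hi
        have hia : i ≠ a := by
          rintro rfl
          exact hnot hi
        exact Function.update_of_ne hia _ _
      have hcases : ∀ i ∈ s0 ∪ insert a s, i = a ∨ i ∈ s0 ∪ s := by
        intro i hi
        simp only [Finset.mem_union, Finset.mem_insert] at hi ⊢
        tauto
      refine ⟨Function.update y1 a y0, ?_, ?_, ?_⟩
      · intro i hi
        rw [hupd i (Finset.mem_union_left _ hi), h1 i hi]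
      · intro i hi
        rcases hcases i hi with rfl | hi'
        · simpa using hy0C
        · rw [hupd i hi']
          exact h2 i hi'
      · intro i hi j hj
        rcases hcases i hi with rfl | hi'
        · rcases hcases j hj with rfl | hj'
          · simp
          · rw [hupd j hj', Function.update_self]
            exact hy0 j hj'
        · rcases hcases j hj with rfl | hj'
          · rw [hupd i hi', Function.update_self, norm_sub_rev, norm_sub_rev (x i)]
            exact hy0 i hi'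
          · rw [hupd i hi', hupd j hj']
            exact h3 i hi' j hj'

end Pool.Agent.H279.Kirszbraun
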