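import Pool.Agent.H279.Near
import Pool.Agent.H279.Kirszbraun

set_option autoImplicit false
set_option linter.unusedSectionVars false
set_option linter.unusedDecidableInType false
set_option linter.unusedFintypeInType false

namespace Pool.Agent.H279.Comb

open Finset
open scoped BigOperators

section Ext

variable {A J : Type*} [Fintype A] [Fintype J] [DecidableEq A] [DecidableEq J]

/-- The Euclidean space in which the source points live. -/
abbrev SrcSpace (A J : Type*) [Fintype A] [Fintype J] [DecidableEq A] [DecidableEq J] :=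
  EuclideanSpace ℝ ((A × (J → Bool)) ⊕ (A → J → Bool))

/-- The source points. -/
noncomputable def src (α β : ℝ) (i : (A → J → Bool) ⊕ (A → J → Bool)) : SrcSpace A J :=
  match i with
  | Sum.inl σ => WithLp.toLp 2 fun k =>
      match k with
      | Sum.inl q => if σ q.1 = q.2 then α else 0
      | Sum.inr ρ => if ρ = σ then β else 0
  | Sum.inr σ => WithLp.toLp 2 fun k =>
      match k with
      | Sum.inl q => if σ q.1 = q.2 then α else 0
      | Sum.inr _ => 0

theorem sum_atoms (α : ℝ) (σ σ' : A → J → Bool) (hN : 0 < (Fintype.card A : ℝ)) :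
    ∑ q : A × (J → Bool), ((if σ q.1 = q.2 then α else 0) - (if σ' q.1 = q.2 then α else 0)) ^ 2 =
      2 * Fintype.card A * α ^ 2 * ham σ σ' := by
  rw [Fintype.sum_prod_type]
  have h1 : ∀ a : A, ∑ b : J → Bool,
      ((if σ a = b then α else 0) - (if σ' a = b then α else 0)) ^ 2 =
      2 * α ^ 2 * (if σ a = σ' a then (0 : ℝ) else 1) := by
    intro a
    by_cases h : σ a = σ' a
    · simp [h]
    · have h2 : ∀ b : J → Bool, ((if σ a = b then α else 0) - (if σ' a = b then α else 0)) ^ 2 =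
          (if σ a = b then α ^ 2 else 0) + (if σ' a = b then α ^ 2 else 0) := by
        intro b
        by_cases h3 : σ a = b
        · have h4 : σ' a ≠ b := fun h5 => h (h3.trans h5.symm)
          simp [h3, h4]
        · simp [h3]
      simp_rw [h2]
      rw [Finset.sum_add_distrib]
      simp [h]
      ring
  simp_rw [h1]
  rw [← Finset.mul_sum]
  unfold ham
  field_simp

theorem sum_patterns (β : ℝ) (σ σ' : A → J → Bool) :
    ∑ ρ : A → J → Bool, ((if ρ = σ then β else 0) - (if ρ = σ' then β else 0)) ^ 2 =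
      if σ = σ' then 0 else 2 * β ^ 2 := by
  by_cases h : σ = σ'
  · simp [h]
  · have h2 : ∀ ρ : A → J → Bool, ((if ρ = σ then β else 0) - (if ρ = σ' then β else 0)) ^ 2 =
        (if ρ = σ then β ^ 2 else 0) + (if ρ = σ' then β ^ 2 else 0) := by
      intro ρ
      by_cases h3 : ρ = σ
      · have h4 : ρ ≠ σ' := fun h5 => h (h3.symm.trans h5)
        simp [h3, h]
      · simp [h3]
    simp_rw [h2]
    rw [Finset.sum_add_distrib]
    simp [h]
    ring

theorem src_inl_inl (α β : ℝ) (σ σ' : A → J → Bool) (hN : 0 < (Fintype.card A : ℝ)) :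
    ‖src α β (Sum.inl σ) - src α β (Sum.inl σ')‖ ^ 2 =
      2 * Fintype.card A * α ^ 2 * ham σ σ' + if σ = σ' then 0 else 2 * β ^ 2 := by
  rw [EuclideanSpace.real_norm_sq_eq, Fintype.sum_sum_type]
  simp only [src, PiLp.sub_apply]
  rw [sum_atoms α σ σ' hN, sum_patterns]

theorem src_inl_inr (α β : ℝ) (σ σ' : A → J → Bool) (hN : 0 < (Fintype.card A : ℝ)) :
    ‖src α β (Sum.inl σ) - src α β (Sum.inr σ')‖ ^ 2 =
      2 * Fintype.card A * α ^ 2 * ham σ σ' + β ^ 2 := by
  rw [EuclideanSpace.real_norm_sq_eq, Fintype.sum_sum_type]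
  simp only [src, PiLp.sub_apply]
  rw [sum_atoms α σ σ' hN]
  congr 1
  simp

theorem src_inr_inr (α β : ℝ) (σ σ' : A → J → Bool) (hN : 0 < (Fintype.card A : ℝ)) :
    ‖src α β (Sum.inr σ) - src α β (Sum.inr σ')‖ ^ 2 =
      2 * Fintype.card A * α ^ 2 * ham σ σ' := by
  rw [EuclideanSpace.real_norm_sq_eq, Fintype.sum_sum_type]
  simp only [src, PiLp.sub_apply]
  rw [sum_atoms α σ σ' hN]
  simp

theorem ham_self (σ : A → J → Bool) : ham σ σ = 0 := by
  simp [ham]

/-- A map which is Hamming-Hölder up to an additive error on a set of patterns is close on that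
set to a map without the error, defined on all patterns. -/
theorem lip_extension {H : Type*} [NormedAddCommGroup H] [InnerProductSpace ℝ H] (C : Set H)
    (hC : Convex ℝ C) (hN : 0 < (Fintype.card A : ℝ)) (G : Finset (A → J → Bool))
    (hG : G.Nonempty) (y : (A → J → Bool) → H) (hyC : ∀ σ ∈ G, y σ ∈ C) (C1 θ : ℝ)
    (hC1 : 0 ≤ C1) (hθ : 0 ≤ θ)
    (hy : ∀ σ ∈ G, ∀ σ' ∈ G, ‖y σ - y σ'‖ ^ 2 ≤ θ ^ 2 + C1 * ham σ σ') :
    ∃ F : (A → J → Bool) → H, (∀ σ, F σ ∈ C) ∧ (∀ σ ∈ G, ‖F σ - y σ‖ ≤ θ) ∧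
      ∀ σ σ', ‖F σ - F σ'‖ ^ 2 ≤ C1 * ham σ σ' := by
  classical
  set N : ℝ := (Fintype.card A : ℝ) with hNdef
  set α : ℝ := Real.sqrt (C1 / (2 * N)) with hα
  set β : ℝ := Real.sqrt (θ ^ 2 / 2) with hβ
  have hα2 : 2 * N * α ^ 2 = C1 := by
    rw [hα, Real.sq_sqrt (by positivity)]
    field_simp
  have hβ2 : β ^ 2 = θ ^ 2 / 2 := by
    rw [hβ, Real.sq_sqrt (by positivity)]
  let x : (A → J → Bool) ⊕ (A → J → Bool) → SrcSpace A J := src α β
  let y0 : (A → J → Bool) ⊕ (A → J → Bool) → H := fun i =>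
    match i with
    | Sum.inl σ => y σ
    | Sum.inr _ => 0
  let s0 : Finset ((A → J → Bool) ⊕ (A → J → Bool)) := G.image Sum.inl
  have hs0 : s0.Nonempty := hG.image _
  obtain ⟨y', h1, h2, h3⟩ := Kirszbraun.extend s0 Finset.univ hs0 C hC x y0
    (by
      intro i hi
      obtain ⟨σ, hσ, rfl⟩ := Finset.mem_image.mp hi
      exact hyC σ hσ)
    (by
      intro i hi j hj
      obtain ⟨σ, hσ, rfl⟩ := Finset.mem_image.mp hi
      obtain ⟨σ', hσ', rfl⟩ := Finset.mem_image.mp hj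
      refine le_of_sq_le_sq ?_ (norm_nonneg _)
      change ‖y σ - y σ'‖ ^ 2 ≤ ‖src α β (Sum.inl σ) - src α β (Sum.inl σ')‖ ^ 2
      rw [src_inl_inl α β σ σ' hN, hα2, hβ2]
      by_cases h : σ = σ'
      · subst h
        simp [ham_self]
      · rw [if_neg h]
        have := hy σ hσ σ' hσ'
        linarith)
  have hall : ∀ i, i ∈ s0 ∪ Finset.univ := fun i => Finset.mem_union_right _ (Finset.mem_univ i)
  refine ⟨fun σ => y' (Sum.inr σ), fun σ => h2 _ (hall _), ?_, ?_⟩
  · intro σ hσ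
    have e1 : y' (Sum.inl σ) = y σ := h1 _ (Finset.mem_image_of_mem _ hσ)
    have e2 := h3 (Sum.inl σ) (hall _) (Sum.inr σ) (hall _)
    rw [e1] at e2
    rw [norm_sub_rev]
    refine e2.trans ?_
    refine le_of_sq_le_sq ?_ hθ
    change ‖src α β (Sum.inl σ) - src α β (Sum.inr σ)‖ ^ 2 ≤ θ ^ 2
    rw [src_inl_inr α β σ σ hN, ham_self, hβ2]
    nlinarith [sq_nonneg θ]
  · intro σ σ'
    have e2 := h3 (Sum.inr σ) (hall _) (Sum.inr σ') (hall _)
    calc ‖y' (Sum.inr σ) - y' (Sum.inr σ')‖ ^ 2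
        ≤ ‖src α β (Sum.inr σ) - src α β (Sum.inr σ')‖ ^ 2 := pow_le_pow_left₀ (norm_nonneg _) e2 2
      _ = C1 * ham σ σ' := by rw [src_inr_inr α β σ σ' hN, hα2]

end Ext

end Pool.Agent.H279.Comb
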