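import Pool.Agent.H279.Comb

set_option autoImplicit false
set_option linter.unusedSectionVars false
set_option linter.unusedDecidableInType false
set_option linter.unusedFintypeInType false

namespace Pool.Agent.H279.Comb

open Finset
open scoped BigOperators

section Near

variable {A J Λ : Type*} [Fintype A] [Fintype J] [Fintype Λ] [DecidableEq A] [DecidableEq J]
  [DecidableEq Λ]

/-- A sign pattern is good when all its block sums are of moderate size. -/
def Good (lab : J → A → Λ) (σ : A → J → Bool) : Prop :=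
  ∀ j, ∑ l, S lab σ j l ^ 2 ≤ 4 * Fintype.card A

open Classical in
theorem expect_bad_le (lab : J → A → Λ) (m : ℝ)
    (hm : ∀ j l, ((Finset.univ.filter fun a => lab j a = l).card : ℝ) ≤ m)
    (hN : 0 < (Fintype.card A : ℝ)) :
    𝔼 σ : A → J → Bool, (if Good lab σ then (0 : ℝ) else 1) ≤
      Fintype.card J * m / Fintype.card A := by
  set N : ℝ := (Fintype.card A : ℝ) with hNdef
  have h1 : ∀ σ : A → J → Bool, (if Good lab σ then (0 : ℝ) else 1) ≤
      ∑ j, (∑ a, ∑ b, offd lab j a b * (eps (σ a j) * eps (σ b j))) ^ 2 / (9 * N ^ 2) := by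
    intro σ
    have hnn : ∀ j, 0 ≤ (∑ a, ∑ b, offd lab j a b * (eps (σ a j) * eps (σ b j))) ^ 2 /
        (9 * N ^ 2) := fun j => by positivity
    by_cases hg : Good lab σ
    · rw [if_pos hg]
      exact Finset.sum_nonneg fun j _ => hnn j
    · rw [if_neg hg]
      unfold Good at hg
      push Not at hg
      obtain ⟨j, hj⟩ := hg
      rw [sum_sq_S] at hj
      refine le_trans ?_ (Finset.single_le_sum (fun j _ => hnn j) (Finset.mem_univ j))
      rw [le_div_iff₀ (by positivity), one_mul]
      have h2 : 3 * N ≤ ∑ a, ∑ b, offd lab j a b * (eps (σ a j) * eps (σ b j)) := by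
        linarith
      nlinarith
  calc _ ≤ 𝔼 σ : A → J → Bool, ∑ j,
        (∑ a, ∑ b, offd lab j a b * (eps (σ a j) * eps (σ b j))) ^ 2 / (9 * N ^ 2) :=
        Finset.expect_le_expect fun σ _ => h1 σ
    _ = ∑ j, (𝔼 σ : A → J → Bool,
        (∑ a, ∑ b, offd lab j a b * (eps (σ a j) * eps (σ b j))) ^ 2) / (9 * N ^ 2) := by
        rw [Finset.expect_sum_comm]
        refine Finset.sum_congr rfl fun j _ => ?_
        rw [Finset.expect_div]
    _ ≤ ∑ _j : J, (2 * (N * m)) / (9 * N ^ 2) := by
        refine Finset.sum_le_sum fun j _ => ?_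
        exact div_le_div_of_nonneg_right (expect_offd_sq lab j m hm) (by positivity)
    _ = Fintype.card J * (2 / 9 * (m / N)) := by
        rw [Finset.sum_const, Finset.card_univ, nsmul_eq_mul]
        congr 1
        field_simp
    _ ≤ Fintype.card J * m / N := by
        by_cases hJ : IsEmpty J
        · simp
        · rw [not_isEmpty_iff] at hJ
          obtain ⟨j⟩ := hJ
          have hA : Nonempty A := by
            by_contra hcon
            rw [not_nonempty_iff] at hcon
            simp [hNdef] at hN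
          have hm0 : 0 ≤ m := by
            obtain ⟨a⟩ := hA
            exact (Nat.cast_nonneg _).trans (hm j (lab j a))
          rw [mul_div_assoc]
          refine mul_le_mul_of_nonneg_left ?_ (Nat.cast_nonneg _)
          have : 0 ≤ m / N := by positivity
          linarith

/-- The normalised absolute block sums are small for good patterns. -/
theorem good_abs (lab : J → A → Λ) (m : ℝ) (hm0 : 0 < m)
    (hcard : (Fintype.card A : ℝ) = m * Fintype.card Λ)
    (hN : 0 < (Fintype.card A : ℝ))
    (σ : A → J → Bool) (hσ : Good lab σ) (j : J) (D : ℝ) (hD0 : 0 ≤ D) (hD : 1 ≤ D ^ 2 * m) :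
    ∑ l, |S lab σ j l / (2 * Fintype.card A)| ≤ D := by
  set N : ℝ := (Fintype.card A : ℝ) with hNdef
  have h1 : (∑ l, |S lab σ j l|) ^ 2 ≤ (Fintype.card Λ : ℝ) * ∑ l, |S lab σ j l| ^ 2 := by
    have := sq_sum_le_card_mul_sum_sq (s := (Finset.univ : Finset Λ)) (f := fun l => |S lab σ j l|)
    simpa using this
  simp_rw [sq_abs] at h1
  have h2 := hσ j
  have h3 : (∑ l, |S lab σ j l|) ^ 2 ≤ (Fintype.card Λ : ℝ) * (4 * N) :=
    h1.trans (mul_le_mul_of_nonneg_left h2 (Nat.cast_nonneg _))
  have h4 : (∑ l, |S lab σ j l|) ^ 2 ≤ (2 * N * D) ^ 2 := by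
    have hL : (Fintype.card Λ : ℝ) * 1 ≤ (Fintype.card Λ : ℝ) * (D ^ 2 * m) :=
      mul_le_mul_of_nonneg_left hD (Nat.cast_nonneg _)
    have h5 : (Fintype.card Λ : ℝ) * (4 * N) ≤ (m * Fintype.card Λ * D ^ 2) * (4 * N) := by
      refine mul_le_mul_of_nonneg_right ?_ (by positivity)
      linarith
    rw [← hcard] at h5
    calc _ ≤ _ := h3
      _ ≤ _ := h5
      _ = (2 * N * D) ^ 2 := by ring
  have h5 : ∑ l, |S lab σ j l| ≤ 2 * N * D :=
    le_of_sq_le_sq h4 (by positivity)
  have h6 : ∑ l, |S lab σ j l / (2 * N)| = (∑ l, |S lab σ j l|) / (2 * N) := by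
    rw [Finset.sum_div]
    refine Finset.sum_congr rfl fun l _ => ?_
    rw [abs_div, abs_of_pos (by positivity : (0 : ℝ) < 2 * N)]
  rw [h6, div_le_iff₀ (by positivity)]
  linarith

/-- Product weights with prescribed charges. -/
theorem exists_product (D : ℝ) (hD : 0 < D) (u : J → Λ → ℝ) (hu : ∀ j, ∑ l, |u j l| ≤ D) :
    ∃ g : (J → Option (Bool × Λ)) → ℝ, (∑ t, |g t| ≤ D) ∧
      ∀ j l, ∑ t, g t * sg (t j) l = u j l := by
  classical
  -- the one coordinate weights
  let ν : J → Option (Bool × Λ) → ℝ := fun j o =>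
    match o with
    | none => 1 - (∑ l, |u j l|) / D
    | some p => max (eps p.1 * u j p.2) 0 / D
  have hν0 : ∀ j o, 0 ≤ ν j o := by
    intro j o
    cases o with
    | none =>
      have : (∑ l, |u j l|) / D ≤ 1 := by
        rw [div_le_one hD]
        exact hu j
      simp only [ν]
      linarith
    | some p => exact div_nonneg (le_max_right _ _) hD.le
  have habs : ∀ x : ℝ, max x 0 + max (-x) 0 = |x| := by
    intro x
    rcases le_total 0 x with h | h
    · rw [max_eq_left h, max_eq_right (by linarith), abs_of_nonneg h, add_zero]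
    · rw [max_eq_right h, max_eq_left (by linarith), abs_of_nonpos h, zero_add]
  have hdiff : ∀ x : ℝ, max x 0 - max (-x) 0 = x := by
    intro x
    rcases le_total 0 x with h | h
    · rw [max_eq_left h, max_eq_right (by linarith), sub_zero]
    · rw [max_eq_right h, max_eq_left (by linarith)]
      ring
  have hν1 : ∀ j, ∑ o, ν j o = 1 := by
    intro j
    rw [Fintype.sum_option, Fintype.sum_prod_type]
    simp only [ν, Fintype.sum_bool, eps]
    simp only [if_true, one_mul, Bool.false_eq_true, if_false, neg_one_mul]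
    rw [← Finset.sum_add_distrib]
    have : ∀ l, max (u j l) 0 / D + max (-u j l) 0 / D = |u j l| / D := by
      intro l
      rw [← add_div, habs]
    simp_rw [this]
    rw [← Finset.sum_div]
    ring
  have hν2 : ∀ j l, ∑ o, sg o l * ν j o = u j l / D := by
    intro j l
    rw [Fintype.sum_option, Fintype.sum_prod_type]
    simp only [ν, Fintype.sum_bool, eps, sg]
    simp only [if_true, one_mul, Bool.false_eq_true, if_false, neg_one_mul, zero_mul, zero_add,
      ite_mul, Finset.sum_ite_eq', Finset.mem_univ]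
    have := hdiff (u j l)
    field_simp
    linarith
  refine ⟨fun t => D * ∏ j, ν j (t j), ?_, ?_⟩
  · have h1 : ∀ t : J → Option (Bool × Λ), |D * ∏ j, ν j (t j)| = D * ∏ j, ν j (t j) := fun t =>
      abs_of_nonneg (mul_nonneg hD.le (Finset.prod_nonneg fun j _ => hν0 j (t j)))
    simp_rw [h1]
    rw [← Finset.mul_sum]
    have h2 : ∑ t : J → Option (Bool × Λ), ∏ j, ν j (t j) = ∏ j, ∑ o, ν j o := by
      rw [Finset.prod_univ_sum, Fintype.piFinset_univ]
    rw [h2]
    simp [hν1]
  · intro j0 l
    let ν' : J → Option (Bool × Λ) → ℝ := fun j o => (if j = j0 then sg o l else 1) * ν j o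
    have h1 : ∀ t : J → Option (Bool × Λ), D * (∏ j, ν j (t j)) * sg (t j0) l =
        D * ∏ j, ν' j (t j) := by
      intro t
      simp only [ν']
      rw [Finset.prod_mul_distrib, Finset.prod_ite_eq' Finset.univ j0 (fun j => sg (t j) l)]
      simp
      ring
    simp_rw [h1]
    rw [← Finset.mul_sum]
    have h2 : ∑ t : J → Option (Bool × Λ), ∏ j, ν' j (t j) = ∏ j, ∑ o, ν' j o := by
      rw [Finset.prod_univ_sum, Fintype.piFinset_univ]
    rw [h2, Finset.prod_eq_single j0]
    · simp only [ν', if_true]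
      rw [hν2]
      field_simp
    · intro j _ hj
      simp only [ν', if_neg hj, one_mul]
      exact hν1 j
    · simp

/-- The normalised sum of the point masses at the tuples of all atoms. -/
noncomputable def fvec (lab : J → A → Λ) (σ : A → J → Bool) (t : J → Option (Bool × Λ)) : ℝ :=
  (∑ a, if tp lab σ a = t then (1 : ℝ) else 0) / (2 * Fintype.card A)

theorem fvec_charge (lab : J → A → Λ) (σ : A → J → Bool) (j : J) (l : Λ) :
    ∑ t, fvec lab σ t * sg (t j) l = S lab σ j l / (2 * Fintype.card A) := by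
  unfold fvec S
  simp_rw [div_mul_eq_mul_div]
  rw [← Finset.sum_div]
  congr 1
  simp_rw [Finset.sum_mul]
  rw [Finset.sum_comm]
  refine Finset.sum_congr rfl fun a _ => ?_
  simp_rw [ite_mul, zero_mul, one_mul]
  rw [Finset.sum_ite_eq]
  simp [tp, sg]

theorem fvec_norm (lab : J → A → Λ) (σ : A → J → Bool) (hN : 0 < (Fintype.card A : ℝ)) :
    ∑ t, |fvec lab σ t| ≤ 1 / 2 := by
  have h1 : ∀ t, |fvec lab σ t| = fvec lab σ t := by
    intro t
    refine abs_of_nonneg (div_nonneg (Finset.sum_nonneg fun a _ => ?_) (by positivity))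
    split_ifs <;> norm_num
  simp_rw [h1]
  unfold fvec
  rw [← Finset.sum_div, Finset.sum_comm]
  simp
  field_simp
  norm_num

theorem fvec_diff (lab : J → A → Λ) (σ σ' : A → J → Bool) (hN : 0 < (Fintype.card A : ℝ)) :
    ∑ t, |fvec lab σ t - fvec lab σ' t| ≤ ham σ σ' := by
  set N : ℝ := (Fintype.card A : ℝ) with hNdef
  have h1 : ∀ t, |fvec lab σ t - fvec lab σ' t| ≤
      (∑ a, |(if tp lab σ a = t then (1 : ℝ) else 0) - (if tp lab σ' a = t then (1 : ℝ) else 0)|) /
        (2 * N) := by
    intro t
    unfold fvec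
    rw [← sub_div, ← Finset.sum_sub_distrib, abs_div, abs_of_pos (by positivity : (0 : ℝ) < 2 * N)]
    exact div_le_div_of_nonneg_right (Finset.abs_sum_le_sum_abs _ _) (by positivity)
  have h2 : ∀ a : A, ∑ t, |(if tp lab σ a = t then (1 : ℝ) else 0) -
      (if tp lab σ' a = t then (1 : ℝ) else 0)| ≤ 2 * (if σ a = σ' a then (0 : ℝ) else 1) := by
    intro a
    by_cases h : σ a = σ' a
    · have : tp lab σ a = tp lab σ' a := by
        funext j
        simp [tp, h]
      simp [this, h]
    · rw [if_neg h]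
      calc _ ≤ ∑ t, ((if tp lab σ a = t then (1 : ℝ) else 0) +
            (if tp lab σ' a = t then (1 : ℝ) else 0)) := by
            refine Finset.sum_le_sum fun t _ => ?_
            split_ifs <;> norm_num
        _ = 2 * 1 := by
            rw [Finset.sum_add_distrib]
            simp
            norm_num
  calc _ ≤ ∑ t, (∑ a, |(if tp lab σ a = t then (1 : ℝ) else 0) -
        (if tp lab σ' a = t then (1 : ℝ) else 0)|) / (2 * N) := Finset.sum_le_sum fun t _ => h1 t
    _ = (∑ a, ∑ t, |(if tp lab σ a = t then (1 : ℝ) else 0) -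
        (if tp lab σ' a = t then (1 : ℝ) else 0)|) / (2 * N) := by
        rw [← Finset.sum_div, Finset.sum_comm]
    _ ≤ (∑ a, 2 * (if σ a = σ' a then (0 : ℝ) else 1)) / (2 * N) := by
        refine div_le_div_of_nonneg_right (Finset.sum_le_sum fun a _ => h2 a) (by positivity)
    _ = ham σ σ' := by
        unfold ham
        rw [← Finset.mul_sum, ← hNdef]
        field_simp

end Near

end Pool.Agent.H279.Comb
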