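import Pool.Agent.H279.Core

set_option autoImplicit false

namespace Pool.Agent.H279.Space

open Finset MeasureTheory
open Pool.Agent.H279.Comb

/-- The index set of the pieces. -/
abbrev Idx : Type := Σ q : ℕ × ℕ, (Fin q.1 → Option (Bool × Fin q.2))

section Abstract

variable {Ω : Type*} [MeasurableSpace Ω] (μ : Measure Ω)

/-- The `L¹` space. -/
abbrev V : Type _ := Lp ℝ 1 μ

/-- The integral over a set, as a linear functional. -/
noncomputable def cf (P : Set Ω) : V μ →L[ℝ] ℝ where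
  toFun v := ∫ x in P, (v : Ω → ℝ) x ∂μ
  map_add' v w := by
    rw [← integral_add (L1.integrable_coeFn v).integrableOn (L1.integrable_coeFn w).integrableOn]
    refine integral_congr_ae (ae_restrict_of_ae ?_)
    exact Lp.coeFn_add v w
  map_smul' c v := by
    rw [RingHom.id_apply, smul_eq_mul, ← integral_const_mul]
    refine integral_congr_ae (ae_restrict_of_ae ?_)
    filter_upwards [Lp.coeFn_smul c v] with x hx
    rw [hx]
    rfl
  cont := continuous_setIntegral P

theorem cf_apply (P : Set Ω) (v : V μ) : cf μ P v = ∫ x in P, (v : Ω → ℝ) x ∂μ := rfl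

theorem sum_abs_cf_le {T : Type*} [Fintype T] (P : T → Set Ω) (hP : ∀ t, MeasurableSet (P t))
    (hd : ∀ s t, s ≠ t → Disjoint (P s) (P t)) (v : V μ) :
    ∑ t, |cf μ (P t) v| ≤ ‖v‖ := by
  have hint : Integrable (v : Ω → ℝ) μ := L1.integrable_coeFn v
  calc ∑ t, |cf μ (P t) v| ≤ ∑ t, ∫ x in P t, ‖(v : Ω → ℝ) x‖ ∂μ := by
        refine Finset.sum_le_sum fun t _ => ?_
        rw [cf_apply, ← Real.norm_eq_abs]
        exact norm_integral_le_integral_norm _
    _ = ∫ x in ⋃ t, P t, ‖(v : Ω → ℝ) x‖ ∂μ := by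
        rw [integral_iUnion_fintype hP (fun s t hst => hd s t hst)
          (fun t => hint.norm.integrableOn)]
    _ ≤ ∫ x, ‖(v : Ω → ℝ) x‖ ∂μ :=
        setIntegral_le_integral hint.norm (Filter.Eventually.of_forall fun x => norm_nonneg _)
    _ = ‖v‖ := (L1.norm_eq_integral_norm v).symm

end Abstract

/-- Data of disjoint pieces. -/
structure Pieces {Ω : Type*} [MeasurableSpace Ω] (μ : Measure Ω) where
  /-- the sets -/
  P : Idx → Set Ω
  meas : ∀ i, MeasurableSet (P i)
  disj : ∀ i k, i ≠ k → Disjoint (P i) (P k)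
  pos : ∀ i, 0 < μ.real (P i)
  fin : ∀ i, μ (P i) ≠ ⊤

section Sub

variable {Ω : Type*} [MeasurableSpace Ω] {μ : Measure Ω} (D : Pieces μ)

/-- The normalised indicator. -/
noncomputable def ev (i : Idx) : V μ :=
  indicatorConstLp 1 (D.meas i) (D.fin i) (1 / μ.real (D.P i))

theorem norm_ev (i : Idx) : ‖ev D i‖ = 1 := by
  have h := D.pos i
  unfold ev
  rw [norm_indicatorConstLp one_ne_zero ENNReal.one_ne_top, Real.norm_eq_abs,
    abs_of_pos (by positivity)]
  simp
  field_simp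

theorem cf_ev_self (i : Idx) : cf μ (D.P i) (ev D i) = 1 := by
  have h := D.pos i
  rw [cf_apply, ev, setIntegral_indicatorConstLp (D.meas i), Set.inter_self, smul_eq_mul]
  field_simp

theorem cf_ev_ne {i k : Idx} (hik : i ≠ k) : cf μ (D.P i) (ev D k) = 0 := by
  rw [cf_apply, ev, setIntegral_indicatorConstLp (D.meas i),
    (Set.disjoint_iff_inter_eq_empty.mp (D.disj k i (Ne.symm hik)))]
  simp

/-- The charges. -/
noncomputable def chg (q : ℕ × ℕ) (j : Fin q.1) (l : Fin q.2) : V μ →L[ℝ] ℝ :=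
  ∑ t : Fin q.1 → Option (Bool × Fin q.2), sg (t j) l • cf μ (D.P ⟨q, t⟩)

theorem chg_apply (q : ℕ × ℕ) (j : Fin q.1) (l : Fin q.2) (v : V μ) :
    chg D q j l v = ∑ t : Fin q.1 → Option (Bool × Fin q.2),
      cf μ (D.P ⟨q, t⟩) v * sg (t j) l := by
  unfold chg
  rw [_root_.sum_apply]
  refine Finset.sum_congr rfl fun t _ => ?_
  rw [_root_.smul_apply, smul_eq_mul, mul_comm]

/-- The subspace of the functions without charge. -/
noncomputable def XX : Submodule ℝ (V μ) :=
  ⨅ (q : ℕ × ℕ) (j : Fin q.1) (l : Fin q.2), LinearMap.ker (chg D q j l).toLinearMap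

theorem mem_XX (v : V μ) : v ∈ XX D ↔ ∀ (q : ℕ × ℕ) (j : Fin q.1) (l : Fin q.2),
    ∑ t : Fin q.1 → Option (Bool × Fin q.2), cf μ (D.P ⟨q, t⟩) v * sg (t j) l = 0 := by
  simp only [XX, Submodule.mem_iInf, LinearMap.mem_ker, ContinuousLinearMap.coe_coe, chg_apply]

theorem isClosed_XX : IsClosed (XX D : Set (V μ)) := by
  have h : (XX D : Set (V μ)) = ⋂ (q : ℕ × ℕ) (j : Fin q.1) (l : Fin q.2),
      {v | chg D q j l v = 0} := by
    ext v
    simp only [SetLike.mem_coe, mem_XX, Set.mem_iInter, Set.mem_ofPred_eq, chg_apply]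
  rw [h]
  refine isClosed_iInter fun q => isClosed_iInter fun j => isClosed_iInter fun l => ?_
  exact isClosed_eq (chg D q j l).continuous continuous_const

/-- The synthesis map. -/
noncomputable def syn (q : ℕ × ℕ) : ((Fin q.1 → Option (Bool × Fin q.2)) → ℝ) →ₗ[ℝ] V μ where
  toFun g := ∑ t, g t • ev D ⟨q, t⟩
  map_add' g h := by
    simp only [Pi.add_apply, add_smul, Finset.sum_add_distrib]
  map_smul' c g := by
    simp only [Pi.smul_apply, smul_eq_mul, mul_smul, RingHom.id_apply, Finset.smul_sum]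

/-- The analysis map. -/
noncomputable def ana (q : ℕ × ℕ) : V μ →ₗ[ℝ] ((Fin q.1 → Option (Bool × Fin q.2)) → ℝ) where
  toFun v t := cf μ (D.P ⟨q, t⟩) v
  map_add' v w := by
    funext t
    simp
  map_smul' c v := by
    funext t
    simp

theorem cf_syn (q : ℕ × ℕ) (g : (Fin q.1 → Option (Bool × Fin q.2)) → ℝ)
    (t : Fin q.1 → Option (Bool × Fin q.2)) : cf μ (D.P ⟨q, t⟩) (syn D q g) = g t := by
  classical
  have h1 : syn D q g = ∑ t, g t • ev D ⟨q, t⟩ := rfl
  rw [h1, map_sum, Finset.sum_eq_single t]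
  · rw [map_smul, cf_ev_self, smul_eq_mul, mul_one]
  · intro s _ hs
    rw [map_smul, cf_ev_ne D, smul_zero]
    intro h
    apply hs
    have := Sigma.mk.inj_iff.mp h
    exact (eq_of_heq this.2).symm
  · intro h
    exact absurd (Finset.mem_univ t) h

theorem cf_syn_ne (q q' : ℕ × ℕ) (hq : q' ≠ q) (g : (Fin q.1 → Option (Bool × Fin q.2)) → ℝ)
    (t : Fin q'.1 → Option (Bool × Fin q'.2)) : cf μ (D.P ⟨q', t⟩) (syn D q g) = 0 := by
  have h1 : syn D q g = ∑ t, g t • ev D ⟨q, t⟩ := rfl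
  rw [h1, map_sum]
  refine Finset.sum_eq_zero fun s _ => ?_
  rw [map_smul, cf_ev_ne D, smul_zero]
  intro h
  exact hq (Sigma.mk.inj_iff.mp h).1

theorem hasCharges (J L : ℕ) : HasCharges (XX D) J L := by
  refine ⟨syn D (J, L), ana D (J, L), ?_, ?_, ?_, ?_, ?_⟩
  · intro g
    refine (norm_sum_le _ _).trans (Finset.sum_le_sum fun t _ => ?_)
    rw [norm_smul, norm_ev, mul_one, Real.norm_eq_abs]
  · intro v
    refine sum_abs_cf_le μ (fun t : Fin J → Option (Bool × Fin L) => D.P ⟨(J, L), t⟩)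
      (fun t => D.meas _) ?_ v
    intro s t hst
    refine D.disj _ _ ?_
    intro h
    exact hst (eq_of_heq (Sigma.mk.inj_iff.mp h).2)
  · intro g
    funext t
    exact cf_syn D (J, L) g t
  · intro x hx j l
    exact (mem_XX D x).mp hx (J, L) j l
  · intro g hg
    rw [mem_XX]
    intro q j l
    by_cases hq : q = (J, L)
    · subst hq
      refine (Finset.sum_congr rfl fun t _ => ?_).trans (hg j l)
      exact congrArg (fun z : ℝ => z * sg (t j) l) (cf_syn D (J, L) g t)
    · simp_rw [cf_syn_ne D (J, L) q hq]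
      simp

theorem infinite_XX : ¬ FiniteDimensional ℝ (XX D) := by
  intro hfin
  -- the vectors attached to the empty tuples
  have hmem : ∀ n : ℕ, ev D ⟨(n, 0), fun _ => none⟩ ∈ XX D := by
    intro n
    rw [mem_XX]
    intro q j l
    refine Finset.sum_eq_zero fun t _ => ?_
    by_cases h : (⟨q, t⟩ : Idx) = ⟨(n, 0), fun _ => none⟩
    · obtain ⟨h1, h2⟩ := Sigma.mk.inj_iff.mp h
      subst h1
      exact l.elim0
    · rw [cf_ev_ne D h, zero_mul]
  let v : ℕ → XX D := fun n => ⟨ev D ⟨(n, 0), fun _ => none⟩, hmem n⟩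
  have hli : LinearIndependent ℝ v := by
    rw [linearIndependent_iff']
    intro s g hg n hn
    have h1 : ∑ i ∈ s, g i • ev D ⟨(i, 0), fun _ => none⟩ = 0 := by
      have := congrArg (fun x : XX D => (x : V μ)) hg
      simpa [v] using this
    have h2 := congrArg (cf μ (D.P ⟨(n, 0), fun _ => none⟩)) h1
    rw [map_sum, map_zero, Finset.sum_eq_single n] at h2
    · rw [map_smul, cf_ev_self, smul_eq_mul, mul_one] at h2
      exact h2
    · intro k _ hk
      rw [map_smul, cf_ev_ne D, smul_zero]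
      intro h
      have h3 := (Sigma.mk.inj_iff.mp h).1
      exact hk (Prod.ext_iff.mp h3).1.symm
    · intro h
      exact absurd hn h
  have hfi : Finite ℕ := hli.finite_of_isNoetherian
  exact not_finite ℕ

end Sub

/-- The pieces of the unit interval. -/
theorem exists_pieces : Nonempty (Pieces (volume.restrict (Set.Icc (0 : ℝ) 1))) := by
  obtain ⟨enc, henc⟩ := exists_injective_nat Idx
  let Q : ℕ → Set ℝ := fun n => Set.Ioo (1 / ((n : ℝ) + 2)) (1 / ((n : ℝ) + 1))
  have hQsub : ∀ n, Q n ⊆ Set.Icc (0 : ℝ) 1 := by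
    intro n x hx
    have h1 : (0 : ℝ) < 1 / ((n : ℝ) + 2) := by positivity
    have h2 : 1 / ((n : ℝ) + 1) ≤ 1 := by
      rw [div_le_one (by positivity)]
      linarith [Nat.cast_nonneg (α := ℝ) n]
    exact ⟨(h1.trans hx.1).le, hx.2.le.trans h2⟩
  have hlt : ∀ n : ℕ, 1 / ((n : ℝ) + 2) < 1 / ((n : ℝ) + 1) := fun n =>
    one_div_lt_one_div_of_lt (by positivity) (by linarith)
  have hQdisj : ∀ n k, n < k → Disjoint (Q n) (Q k) := by
    intro n k hnk
    rw [Set.disjoint_left]
    intro x hx hx'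
    have h1 : (n : ℝ) + 2 ≤ (k : ℝ) + 1 := by
      have : (n : ℝ) + 1 ≤ k := by exact_mod_cast hnk
      linarith
    have h2 : 1 / ((k : ℝ) + 1) ≤ 1 / ((n : ℝ) + 2) :=
      one_div_le_one_div_of_le (by positivity) h1
    linarith [hx.1, hx'.2]
  have hvol : ∀ n, (volume.restrict (Set.Icc (0 : ℝ) 1)) (Q n) =
      ENNReal.ofReal (1 / ((n : ℝ) + 1) - 1 / ((n : ℝ) + 2)) := by
    intro n
    rw [Measure.restrict_apply measurableSet_Ioo, Set.inter_eq_left.mpr (hQsub n),
      Real.volume_Ioo]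
  refine ⟨⟨fun i => Q (enc i), fun i => measurableSet_Ioo, ?_, ?_, ?_⟩⟩
  · intro i k hik
    rcases lt_or_gt_of_ne (fun h => hik (henc h) : enc i ≠ enc k) with h | h
    · exact hQdisj _ _ h
    · exact (hQdisj _ _ h).symm
  · intro i
    rw [measureReal_def, hvol, ENNReal.toReal_ofReal (by linarith [hlt (enc i)])]
    linarith [hlt (enc i)]
  · intro i
    rw [hvol]
    exact ENNReal.ofReal_ne_top

end Pool.Agent.H279.Space
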